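import Pool.Agent.H68.FW.Defs

/-!
# FW A1: forms along a holomorphic curve in projective space

Adapt the private lemmas `vanish_local`, `vanish_dich`, `exists_lift`, `ord_eq_zero_of_ne`, `quot_mero`, `ord_quot` of `Pool.Agent.H62.FC.PicardBrody` (there for the coordinates `X i` and the
punctured disc) to forms and to open sets `U`. Near a point `s ∈ U`: `f z = [φ z]`, `φ` analytic, `(f z).rep = c • φ z` with `c ≠ 0` depending on `z` (`Pool.Agent.H17.exists_smul_rep`), so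
`eval (f z).rep P / eval (f z).rep Q = eval (φ z) P / eval (φ z) Q` for forms `P`, `Q` of the same degree (`Pool.Agent.H17.eval_smul_of_isHomogeneous`). `o P = ordZ (fun z => eval (φ z) P) s`.
-/

open MvPolynomial Topology Filter

namespace Pool.Agent.H68.FW

open Pool.Agent.H17 Pool.Agent.H62.Log
open Pool.Agent.H92.GGL (ordZ)

variable {N : ℕ} {f : ℂ → PN N} {U : Set ℂ}

private theorem A1_local {f : ℂ → PN N} {s : ℂ} {φ : ℂ → Fin (N + 1) → ℂ}
    (hφ : AnalyticAt ℂ φ s)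
    (he : ∀ᶠ z in 𝓝 s, ∃ h : φ z ≠ 0, f z = Projectivization.mk ℂ (φ z) h)
    {Q : MvPolynomial (Fin (N + 1)) ℂ} {m : ℕ} (hQ : Q.IsHomogeneous m) :
    (∀ᶠ z in 𝓝 s, VanishesAt Q (f z)) ∨ (∀ᶠ z in 𝓝[≠] s, ¬ VanishesAt Q (f z)) := by
  have h1 : AnalyticAt ℂ (fun z => aeval (φ z) Q) s :=
    AnalyticAt.aeval_mvPolynomial (fun i => analyticAt_pi_iff.mp hφ i) Q
  rcases h1.eventually_eq_zero_or_eventually_ne_zero with h | h
  · left
    filter_upwards [h, he] with z hz hfz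
    obtain ⟨h2, h3⟩ := hfz
    rw [h3, Pool.Agent.H17.vanishesAt_mk_iff hQ]
    exact hz
  · right
    filter_upwards [h, he.filter_mono nhdsWithin_le_nhds] with z hz hfz
    obtain ⟨h2, h3⟩ := hfz
    rw [h3, Pool.Agent.H17.vanishesAt_mk_iff hQ]
    exact hz

private theorem A1_analytic {φ : ℂ → Fin (N + 1) → ℂ} {s : ℂ} (hφ : AnalyticAt ℂ φ s)
    (Q : MvPolynomial (Fin (N + 1)) ℂ) : AnalyticAt ℂ (fun z => eval (φ z) Q) s := by
  have h := AnalyticAt.aeval_mvPolynomial (fun i => analyticAt_pi_iff.mp hφ i) Q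
  simpa only [MvPolynomial.aeval_def, MvPolynomial.eval₂_eq_eval_map, Algebra.algebraMap_self,
    MvPolynomial.map_id] using h

/-- quotients of forms of the same degree do not depend on the lift -/
private theorem A1_quot {f : ℂ → PN N} {φ : ℂ → Fin (N + 1) → ℂ} {z : ℂ}
    (he : ∃ h : φ z ≠ 0, f z = Projectivization.mk ℂ (φ z) h)
    {P Q : MvPolynomial (Fin (N + 1)) ℂ} {D : ℕ} (hP : P.IsHomogeneous D)
    (hQ : Q.IsHomogeneous D) :
    eval (f z).rep P / eval (f z).rep Q = eval (φ z) P / eval (φ z) Q := by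
  obtain ⟨h1, h2⟩ := he
  obtain ⟨a, ha, h3⟩ := Pool.Agent.H17.exists_smul_rep (φ z) h1
  have e1 : (f z).rep = fun l => a * φ z l := by
    rw [h2, h3]
    rfl
  rw [e1, Pool.Agent.H17.eval_smul_of_isHomogeneous hP,
    Pool.Agent.H17.eval_smul_of_isHomogeneous hQ, mul_div_mul_left _ _ (pow_ne_zero _ ha)]

/-- the identity principle -/
theorem vanish_dich (hU : IsOpen U) (hc : IsPreconnected U) (hf : HolomorphicInto f U)
    {Q : MvPolynomial (Fin (N + 1)) ℂ} {m : ℕ} (hQ : Q.IsHomogeneous m) :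
    (∀ s ∈ U, VanishesAt Q (f s)) ∨ (∀ s ∈ U, ∀ᶠ z in 𝓝[≠] s, ¬ VanishesAt Q (f z)) := by
  have hou : IsOpen {s | ∀ᶠ z in 𝓝 s, VanishesAt Q (f z)} := isOpen_setOfPred_eventually_nhds
  have hov : IsOpen {s | ∀ᶠ z in 𝓝[≠] s, ¬ VanishesAt Q (f z)} :=
    isOpen_setOfPred_eventually_nhdsWithin
  have hd : Disjoint {s | ∀ᶠ z in 𝓝 s, VanishesAt Q (f z)}
      {s | ∀ᶠ z in 𝓝[≠] s, ¬ VanishesAt Q (f z)} := by
    rw [Set.disjoint_left]
    intro s hs hs'
    have h1 : ∀ᶠ z in 𝓝 s, VanishesAt Q (f z) := hs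
    have h2 : ∀ᶠ z in 𝓝[≠] s, ¬ VanishesAt Q (f z) := hs'
    obtain ⟨z, h3, h4⟩ := ((h1.filter_mono nhdsWithin_le_nhds).and h2).exists
    exact h4 h3
  have hsub : U ⊆ {s | ∀ᶠ z in 𝓝 s, VanishesAt Q (f z)} ∪
      {s | ∀ᶠ z in 𝓝[≠] s, ¬ VanishesAt Q (f z)} := by
    intro s hs
    obtain ⟨φ, hφ, he⟩ := hf s hs
    exact A1_local hφ he hQ
  by_cases hne : (U ∩ {s | ∀ᶠ z in 𝓝 s, VanishesAt Q (f z)}).Nonempty
  · left
    intro s hs
    have h1 : ∀ᶠ z in 𝓝 s, VanishesAt Q (f z) :=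
      (hc.subset_left_of_subset_union hou hov hd hsub hne) hs
    exact h1.self_of_nhds
  · right
    intro s hs
    rcases hsub hs with h | h
    · exact absurd ⟨s, hs, h⟩ hne
    · exact h

theorem vanishes_mul (hf : HolomorphicInto f Set.univ) {m m' : ℕ}
    {P Q : MvPolynomial (Fin (N + 1)) ℂ} (hP : P.IsHomogeneous m) (hQ : Q.IsHomogeneous m')
    (h : ∀ z, VanishesAt (P * Q) (f z)) : (∀ z, VanishesAt P (f z)) ∨ ∀ z, VanishesAt Q (f z) := by
  rcases vanish_dich isOpen_univ isPreconnected_univ hf hP with h1 | h1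
  · exact Or.inl fun z => h1 z (Set.mem_univ z)
  · rcases vanish_dich isOpen_univ isPreconnected_univ hf hQ with h2 | h2
    · exact Or.inr fun z => h2 z (Set.mem_univ z)
    · exfalso
      obtain ⟨z, h3, h4⟩ := ((h1 0 (Set.mem_univ 0)).and (h2 0 (Set.mem_univ 0))).exists
      have h5 := h z
      unfold VanishesAt at h3 h4 h5
      rw [map_mul] at h5
      rcases mul_eq_zero.mp h5 with h6 | h6
      · exact h3 h6
      · exact h4 h6

theorem quot_mero (hf : HolomorphicInto f U) {P Q : MvPolynomial (Fin (N + 1)) ℂ} {D : ℕ}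
    (hP : P.IsHomogeneous D) (hQ : Q.IsHomogeneous D) {s : ℂ} (hs : s ∈ U) :
    MeromorphicAt (fun z => eval (f z).rep P / eval (f z).rep Q) s := by
  obtain ⟨φ, hφ, he⟩ := hf s hs
  have h1 : MeromorphicAt (fun z => eval (φ z) P / eval (φ z) Q) s :=
    (A1_analytic hφ P).meromorphicAt.fun_div (A1_analytic hφ Q).meromorphicAt
  refine h1.congr ?_
  filter_upwards [he.filter_mono nhdsWithin_le_nhds] with z hz
  exact (A1_quot hz hP hQ).symm

theorem ord_quot (hf : HolomorphicInto f U) {s : ℂ} (hs : s ∈ U) :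
    ∃ o : MvPolynomial (Fin (N + 1)) ℂ → ℤ,
      (∀ (L : MvPolynomial (Fin (N + 1)) ℂ) (m e : ℕ), L.IsHomogeneous m →
        (∀ᶠ z in 𝓝[≠] s, ¬ VanishesAt L (f z)) → o (L ^ e) = e * o L) ∧
      (∀ (P : MvPolynomial (Fin (N + 1)) ℂ) (D : ℕ), P.IsHomogeneous D → ¬ VanishesAt P (f s) →
        o P = 0) ∧
      ∀ (P Q : MvPolynomial (Fin (N + 1)) ℂ) (D : ℕ), P.IsHomogeneous D → Q.IsHomogeneous D →
        (∀ᶠ z in 𝓝[≠] s, ¬ VanishesAt P (f z)) → (∀ᶠ z in 𝓝[≠] s, ¬ VanishesAt Q (f z)) →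
        ordZ (fun z => eval (f z).rep P / eval (f z).rep Q) s = o P - o Q := by
  obtain ⟨φ, hφ, he⟩ := hf s hs
  have hne : ∀ (L : MvPolynomial (Fin (N + 1)) ℂ) (m : ℕ), L.IsHomogeneous m →
      (∀ᶠ z in 𝓝[≠] s, ¬ VanishesAt L (f z)) → ∀ᶠ z in 𝓝[≠] s, eval (φ z) L ≠ 0 := by
    intro L m hL h
    filter_upwards [h, he.filter_mono nhdsWithin_le_nhds] with z h1 h2
    obtain ⟨h3, h4⟩ := h2
    rw [h4, Pool.Agent.H17.vanishesAt_mk_iff hL] at h1
    exact h1
  have htop : ∀ (L : MvPolynomial (Fin (N + 1)) ℂ) (m : ℕ), L.IsHomogeneous m →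
      (∀ᶠ z in 𝓝[≠] s, ¬ VanishesAt L (f z)) →
      meromorphicOrderAt (fun z => eval (φ z) L) s ≠ ⊤ := fun L m hL h =>
    (meromorphicOrderAt_ne_top_iff_eventually_ne_zero (A1_analytic hφ L).meromorphicAt).mpr
      (hne L m hL h)
  refine ⟨fun P => ordZ (fun z => eval (φ z) P) s, ?_, ?_, ?_⟩
  · intro L m e hL h
    have h1 : (fun z => eval (φ z) (L ^ e)) = fun z => eval (φ z) L ^ e := by
      funext z
      rw [map_pow]
    have h2 : meromorphicOrderAt (fun z => eval (φ z) L ^ e) s =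
        e * meromorphicOrderAt (fun z => eval (φ z) L) s :=
      meromorphicOrderAt_pow (A1_analytic hφ L).meromorphicAt
    have h3 : ∀ᶠ z in 𝓝[≠] s, ¬ VanishesAt (L ^ e) (f z) := by
      filter_upwards [h] with z h4 h5
      unfold VanishesAt at h4 h5
      rw [map_pow] at h5
      exact h4 (eq_zero_of_pow_eq_zero h5)
    rw [← h1, ← Pool.Agent.H92.GGL.ordZ_cast (htop L m hL h),
      ← Pool.Agent.H92.GGL.ordZ_cast (htop (L ^ e) (m * e) (hL.pow e) h3)] at h2
    show ordZ (fun z => eval (φ z) (L ^ e)) s = e * ordZ (fun z => eval (φ z) L) s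
    exact_mod_cast h2
  · intro P D hP h
    obtain ⟨h1, h2⟩ := he.self_of_nhds
    rw [h2, Pool.Agent.H17.vanishesAt_mk_iff hP] at h
    show ordZ (fun z => eval (φ z) P) s = 0
    unfold ordZ
    rw [(A1_analytic hφ P).meromorphicOrderAt_eq,
      (A1_analytic hφ P).analyticOrderAt_eq_zero.mpr h]
    rfl
  · intro P Q D hP hQ h h'
    have hPt := htop P D hP h
    have hQt := htop Q D hQ h'
    have hPa := (A1_analytic hφ P).meromorphicAt
    have hQa := (A1_analytic hφ Q).meromorphicAt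
    have h1 : (fun z => eval (f z).rep P / eval (f z).rep Q) =ᶠ[𝓝[≠] s]
        fun z => eval (φ z) P / eval (φ z) Q := by
      filter_upwards [he.filter_mono nhdsWithin_le_nhds] with z hz
      exact A1_quot hz hP hQ
    have hq : meromorphicOrderAt (fun z => eval (φ z) P / eval (φ z) Q) s ≠ ⊤ := by
      rw [meromorphicOrderAt_ne_top_iff_eventually_ne_zero (hPa.fun_div hQa)]
      filter_upwards [hne P D hP h, hne Q D hQ h'] with z h2 h3
      exact div_ne_zero h2 h3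
    have h2 : (fun z => eval (φ z) P) =ᶠ[𝓝[≠] s]
        fun z => (eval (φ z) P / eval (φ z) Q) * eval (φ z) Q := by
      filter_upwards [hne Q D hQ h'] with z h3
      rw [div_mul_cancel₀ _ h3]
    have h3 := meromorphicOrderAt_congr h2
    have h4 : meromorphicOrderAt (fun z => (eval (φ z) P / eval (φ z) Q) * eval (φ z) Q) s =
        meromorphicOrderAt (fun z => eval (φ z) P / eval (φ z) Q) s +
          meromorphicOrderAt (fun z => eval (φ z) Q) s :=
      fun_meromorphicOrderAt_mul (hPa.fun_div hQa) hQa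
    rw [h4, ← Pool.Agent.H92.GGL.ordZ_cast hPt, ← Pool.Agent.H92.GGL.ordZ_cast hQt,
      ← Pool.Agent.H92.GGL.ordZ_cast hq] at h3
    have h5 : ordZ (fun z => eval (φ z) P) s =
        ordZ (fun z => eval (φ z) P / eval (φ z) Q) s + ordZ (fun z => eval (φ z) Q) s := by
      exact_mod_cast h3
    have h6 : ordZ (fun z => eval (f z).rep P / eval (f z).rep Q) s =
        ordZ (fun z => eval (φ z) P / eval (φ z) Q) s := by
      unfold ordZ
      rw [meromorphicOrderAt_congr h1]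
    show ordZ (fun z => eval (f z).rep P / eval (f z).rep Q) s =
      ordZ (fun z => eval (φ z) P) s - ordZ (fun z => eval (φ z) Q) s
    rw [h6]
    linarith

end Pool.Agent.H68.FW
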