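import Pool.Agent.H68.FW.A1
import Pool.Agent.H62.FC.PicardBrody

/-!
# FW A2: minimal relations between forms along an entire curve (truncated second main theorem of Cartan type)

`const_ratio`: `f : ℂ → ℙ^N` holomorphic, `P i` (`i : I`, `card I = k`) forms of the same degree `D` with `∑ P i = 0` along `f`, no proper nonempty subset of the `P i` has sum `0` along `f`; every `P i` is an
`e`-th power `L^e` of a form or has no zero along `f`; `k (k - 2) < e`. Then any two of the `P i` are proportional along `f` (constant factor).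
Proof. If `card I ≤ 1` then `i = j` and `C = 1`. Otherwise (singletons are proper subsets) no `P i` vanishes identically along `f`, so by `vanish_dich` the zeros of each `P i` along `f` are isolated.
Let `g z = f (exp z⁻¹)` on the punctured disc (`Pool.Agent.H17.HolomorphicInto.comp`, as in the proof of `Pool.Agent.H62.FC.brody`); `g` is not identically in the zero set of `P i` (every `w ≠ 0` is a value of `exp z⁻¹` on the punctured disc: `Pool.Agent.H99.Cover.exists_seq_exp_inv`),
so the zeros of `P i` along `g` are isolated too (`vanish_dich`, `puncturedDisc` is preconnected: `Pool.Agent.H92.GGL.isPreconnected_punctured`). `ξ i z = eval (g z).rep (P i) / eval (g z).rep (P j)`: `MeroPunct 1 (ξ i)` (`quot_mero`), `∑ ξ i = 0` off the zeros of `P j`, and by `ord_quot`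
`e ∣ ordZ (ξ i) s - ordZ (ξ i') s = o (P i) - o (P i')` for all `s` (`o (L^e) = e * o L`; `o (P i) = 0` if `P i` has no zeros along `f`). Apply `punct_dichotomy` with `κ = Unit`, the polynomial `∑ i, X i` (`k` monomials), `d = e`: `hdiv` is this divisibility;
`hlev`: if all weighted components vanish for `n : I → ℤ` then `∑_{n i = v} ξ i = 0` for all `v`, so by the identity principle (`vanish_dich` for `f` and the form `∑_{n i = v} P i`) this form vanishes along `f`, and by minimality `n` is constant. So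
`ξ i / ξ j` extends meromorphically to `0`: there is `v` meromorphic at `0` with `ξ i / ξ j = v` near `0` (off points). For every `w ≠ 0` outside the isolated zeros of `P i`, `P j` along `f` take `z n → 0` with `exp (1/z n) = w`: `v (z n) = eval (f w).rep (P i) / eval (f w).rep (P j) ≠ 0, ∞` for all large `n`
(`PunctMero` gives equality on a punctured neighbourhood of each `z n`, by continuity of both sides at `z n` [no zeros or poles there; choose `w` generic] also at `z n`; alternatively compare limits along punctured neighbourhoods). So `v` has no pole at `0` and its limit `C` is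
the same for all these `w`: `eval (f w).rep (P i) = C * eval (f w).rep (P j)` off a discrete set, and then everywhere by the identity principle applied to the form `P i - C P j`.
(Alternative for the last part: the argument of `Pool.Agent.H62.FC.brody` for the map `z ↦ [P i (f z) : P j (f z)]` into `ℙ^1`.)
-/

open MvPolynomial

namespace Pool.Agent.H68.FW

open Pool.Agent.H17 Pool.Agent.H62.Log

section aux

open Topology Filter
open Pool.Agent.H92.GGL (ordZ)
open Pool.Agent.H62.FC (MeroPunct PunctMero punct_dichotomy)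

private theorem mem_pd {z : ℂ} : z ∈ puncturedDisc ↔ 0 < ‖z‖ ∧ ‖z‖ < 1 := by
  unfold puncturedDisc
  rw [Set.mem_sdiff, mem_ball_zero_iff, Set.mem_singleton_iff, norm_pos_iff]
  exact and_comm

private theorem isOpen_pd : IsOpen puncturedDisc :=
  Metric.isOpen_ball.sdiff isClosed_singleton

private theorem preconn_pd : IsPreconnected puncturedDisc := by
  have h := Pool.Agent.H92.GGL.isPreconnected_punctured 1
  have h2 : puncturedDisc = {z : ℂ | 0 < ‖z‖ ∧ ‖z‖ < 1} := by
    ext z
    exact mem_pd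
  rw [h2]
  exact h

private theorem eventually_pd {s : ℂ} (hs : s ∈ puncturedDisc) :
    ∀ᶠ z in 𝓝[≠] s, z ∈ puncturedDisc := by
  have h : ∀ᶠ z in 𝓝 s, z ∈ puncturedDisc := isOpen_pd.mem_nhds hs
  exact h.filter_mono nhdsWithin_le_nhds

private theorem hseq (w : ℂ) (hw : w ≠ 0) : ∃ zs : ℕ → ℂ, Tendsto zs atTop (𝓝 0) ∧
    ∀ᶠ n in atTop, zs n ∈ puncturedDisc ∧ Complex.exp (zs n)⁻¹ = w := by
  obtain ⟨zs, h1, h2⟩ := Pool.Agent.H99.Cover.exists_seq_exp_inv w hw
  refine ⟨zs, h1, ?_⟩
  filter_upwards [h2, h1.eventually (Metric.ball_mem_nhds (0 : ℂ) one_pos)] with n h3 h4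
  exact ⟨⟨h4, h3.1⟩, h3.2⟩

private theorem hol_g {N : ℕ} {f : ℂ → PN N} (hf : HolomorphicInto f Set.univ) :
    HolomorphicInto (fun z => f (Complex.exp z⁻¹)) puncturedDisc := by
  refine Pool.Agent.H17.HolomorphicInto.comp hf (u := fun z => Complex.exp z⁻¹) ?_
    (fun _ _ => Set.mem_univ _)
  intro z hz
  have h1 : z ≠ 0 := hz.2
  exact (analyticAt_inv h1).cexp

private theorem nz_f {N : ℕ} {f : ℂ → PN N} (hf : HolomorphicInto f Set.univ)
    {Q : MvPolynomial (Fin (N + 1)) ℂ} {m : ℕ} (hQ : Q.IsHomogeneous m)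
    (h : ∃ z, ¬ VanishesAt Q (f z)) (s : ℂ) : ∀ᶠ z in 𝓝[≠] s, ¬ VanishesAt Q (f z) := by
  rcases vanish_dich isOpen_univ isPreconnected_univ hf hQ with h1 | h1
  · obtain ⟨z, hz⟩ := h
    exact absurd (h1 z (Set.mem_univ z)) hz
  · exact h1 s (Set.mem_univ s)

private theorem nz_g {N : ℕ} {f : ℂ → PN N} (hf : HolomorphicInto f Set.univ)
    {Q : MvPolynomial (Fin (N + 1)) ℂ} {m : ℕ} (hQ : Q.IsHomogeneous m)
    (h : ∃ z, ¬ VanishesAt Q (f z)) : ∀ s ∈ puncturedDisc,
      ∀ᶠ z in 𝓝[≠] s, ¬ VanishesAt Q (f (Complex.exp z⁻¹)) := by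
  rcases vanish_dich isOpen_pd preconn_pd (hol_g hf) hQ with h1 | h1
  · exfalso
    obtain ⟨w, hw, hw0⟩ := ((nz_f hf hQ h 0).and self_mem_nhdsWithin).exists
    obtain ⟨zs, -, h3⟩ := hseq w hw0
    obtain ⟨n, h4, h5⟩ := h3.exists
    apply hw
    have h6 := h1 (zs n) h4
    rwa [h5] at h6
  · exact h1

/-- continuity of quotients of forms along `f` -/
private theorem cont_quot {N : ℕ} {f : ℂ → PN N} {U : Set ℂ} (hf : HolomorphicInto f U)
    {P Q : MvPolynomial (Fin (N + 1)) ℂ} {D : ℕ} (hP : P.IsHomogeneous D) (hQ : Q.IsHomogeneous D)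
    {s : ℂ} (hs : s ∈ U) (hne : ¬ VanishesAt Q (f s)) :
    ContinuousAt (fun z => eval (f z).rep P / eval (f z).rep Q) s := by
  obtain ⟨φ, hφ, he⟩ := hf s hs
  have hφ' : ∀ R : MvPolynomial (Fin (N + 1)) ℂ, AnalyticAt ℂ (fun z => eval (φ z) R) s := by
    intro R
    have h1 : AnalyticAt ℂ (fun z => aeval (φ z) R) s :=
      AnalyticAt.aeval_mvPolynomial (fun i => analyticAt_pi_iff.mp hφ i) R
    simpa [MvPolynomial.coe_aeval_eq_eval] using h1
  have hrep : ∀ᶠ z in 𝓝 s, ∃ c : ℂ, c ≠ 0 ∧ ∀ (R : MvPolynomial (Fin (N + 1)) ℂ) (m : ℕ),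
      R.IsHomogeneous m → eval (f z).rep R = c ^ m * eval (φ z) R := by
    filter_upwards [he] with z hz
    obtain ⟨h1, h2⟩ := hz
    obtain ⟨a, ha, h3⟩ := Pool.Agent.H17.exists_smul_rep (φ z) h1
    refine ⟨a, ha, fun R m hR => ?_⟩
    rw [h2, h3, ← Pool.Agent.H17.eval_smul_of_isHomogeneous hR]
    rfl
  have hQs : eval (φ s) Q ≠ 0 := by
    obtain ⟨c, hc, h1⟩ := hrep.self_of_nhds
    intro h2
    apply hne
    unfold VanishesAt
    rw [h1 Q D hQ, h2, mul_zero]
  have h2 : ContinuousAt (fun z => eval (φ z) P / eval (φ z) Q) s :=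
    (hφ' P).continuousAt.div (hφ' Q).continuousAt hQs
  refine h2.congr ?_
  filter_upwards [hrep] with z hz
  obtain ⟨c, hc, h3⟩ := hz
  rw [h3 P D hP, h3 Q D hQ, mul_div_mul_left _ _ (pow_ne_zero _ hc)]

private theorem whc_sumX {I : Type} [Fintype I] [DecidableEq I] (n : I → ℤ) (v : ℤ) :
    weightedHomogeneousComponent n v (∑ i : I, (X i : MvPolynomial I ℂ)) =
      ∑ i ∈ Finset.univ.filter (fun i => n i = v), X i := by
  rw [map_sum, Finset.sum_filter]
  refine Finset.sum_congr rfl fun i _ => ?_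
  by_cases h : n i = v
  · rw [if_pos h, ← h]
    exact (isWeightedHomogeneous_X ℂ n i).weightedHomogeneousComponent_same
  · rw [if_neg h]
    exact (isWeightedHomogeneous_X ℂ n i).weightedHomogeneousComponent_ne v (Ne.symm h)

private theorem supp_sumX {I : Type} [Fintype I] [DecidableEq I] {a : I →₀ ℕ}
    (ha : a ∈ (∑ i : I, (X i : MvPolynomial I ℂ)).support) : ∃ i, a = Finsupp.single i 1 := by
  have h1 := MvPolynomial.support_sum ha
  rw [Finset.mem_biUnion] at h1
  obtain ⟨i, -, hi⟩ := h1
  rw [support_X, Finset.mem_singleton] at hi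
  exact ⟨i, hi⟩

end aux

open Topology Filter in
open Pool.Agent.H92.GGL (ordZ) in
open Pool.Agent.H62.FC (MeroPunct PunctMero punct_dichotomy) in
theorem const_ratio {N D e : ℕ} {I : Type} [Fintype I] [DecidableEq I] {f : ℂ → PN N}
    (hf : HolomorphicInto f Set.univ) {P : I → MvPolynomial (Fin (N + 1)) ℂ}
    (hP : ∀ i, (P i).IsHomogeneous D)
    (hpow : ∀ i, (∃ (L : MvPolynomial (Fin (N + 1)) ℂ) (m : ℕ), L.IsHomogeneous m ∧ P i = L ^ e) ∨
      ∀ z, ¬ VanishesAt (P i) (f z))
    (hsum : ∀ z, VanishesAt (∑ i, P i) (f z))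
    (hmin : ∀ T : Finset I, T.Nonempty → T ≠ Finset.univ → ∃ z, ¬ VanishesAt (∑ i ∈ T, P i) (f z))
    (he : Fintype.card I * (Fintype.card I - 2) < e) (i j : I) :
    ∃ C : ℂ, ∀ z, eval (f z).rep (P i) = C * eval (f z).rep (P j) := by
  classical
  by_cases hij : i = j
  · subst hij
    exact ⟨1, fun z => (one_mul _).symm⟩
  -- no form vanishes identically
  have hcard : 1 < Fintype.card I := Fintype.one_lt_card_iff.mpr ⟨i, j, hij⟩
  have hnz : ∀ l, ∃ z, ¬ VanishesAt (P l) (f z) := by
    intro l
    have h1 := hmin {l} (Finset.singleton_nonempty l) (by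
      intro h
      have h2 := congrArg Finset.card h
      rw [Finset.card_singleton, Finset.card_univ] at h2
      omega)
    simpa using h1
  have he0 : 0 < e := lt_of_le_of_lt (Nat.zero_le _) he
  -- the map on the punctured disc
  set g : ℂ → PN N := fun z => f (Complex.exp z⁻¹) with hg
  have hgh : HolomorphicInto g puncturedDisc := hol_g hf
  have hgz : ∀ l, ∀ s ∈ puncturedDisc, ∀ᶠ z in 𝓝[≠] s, ¬ VanishesAt (P l) (g z) :=
    fun l => nz_g hf (hP l) (hnz l)
  have hPunct : ∀ l, MeroPunct 1 (fun z => eval (g z).rep (P l) / eval (g z).rep (P j)) := by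
    intro l
    refine ⟨fun z h1 h2 => quot_mero hgh (hP l) (hP j) (mem_pd.mpr ⟨h1, h2⟩), fun z h1 h2 => ?_⟩
    have hs := mem_pd.mpr ⟨h1, h2⟩
    rw [meromorphicOrderAt_ne_top_iff_eventually_ne_zero (quot_mero hgh (hP l) (hP j) hs)]
    filter_upwards [hgz l z hs, hgz j z hs] with w h3 h4
    exact div_ne_zero h3 h4
  have hdich := punct_dichotomy (κ := Unit) (R₀ := 1) one_pos
    (ξ := fun l z => eval (g z).rep (P l) / eval (g z).rep (P j)) hPunct
    (P := fun _ => ∑ i : I, (X i : MvPolynomial I ℂ)) (k := Fintype.card I) (d := e)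
    (by
      intro _
      have h1 : (∑ i : I, (X i : MvPolynomial I ℂ)).support ⊆
          Finset.univ.image (fun i : I => Finsupp.single i 1) := by
        intro a ha
        obtain ⟨i, rfl⟩ := supp_sumX ha
        exact Finset.mem_image_of_mem _ (Finset.mem_univ i)
      exact (Finset.card_le_card h1).trans (Finset.card_image_le.trans (by simp)))
    he
    (by
      intro _ z h1 h2
      filter_upwards with ζ
      rw [map_sum]
      simp only [eval_X]
      rw [← Finset.sum_div, ← map_sum]
      have h3 : eval (g ζ).rep (∑ i, P i) = 0 := hsum (Complex.exp ζ⁻¹)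
      rw [h3, zero_div])
    (by
      intro _ a ha b hb z h1 h2
      have hs := mem_pd.mpr ⟨h1, h2⟩
      obtain ⟨o, ho1, ho2, ho3⟩ := ord_quot hgh hs
      obtain ⟨i₁, rfl⟩ := supp_sumX ha
      obtain ⟨i₂, rfl⟩ := supp_sumX hb
      have hdvd : ∀ l, (e : ℤ) ∣ o (P l) := by
        intro l
        rcases hpow l with ⟨L, m, hL, hPL⟩ | h3
        · rw [hPL, ho1 L m e hL ?_]
          · exact dvd_mul_right _ _
          · filter_upwards [hgz l z hs] with w h4 h5
            apply h4
            unfold VanishesAt at h5 ⊢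
            rw [hPL, map_pow, h5, zero_pow he0.ne']
        · rw [ho2 (P l) D (hP l) (h3 _)]
          exact dvd_zero _
      have hord : ∀ l, ordZ (fun z => eval (g z).rep (P l) / eval (g z).rep (P j)) z =
          o (P l) - o (P j) := fun l => ho3 (P l) (P j) D (hP l) (hP j) (hgz l z hs) (hgz j z hs)
      have hsum1 : ∀ l : I, ∑ i, (((Finsupp.single l 1 : I →₀ ℕ) i : ℤ)) *
          ordZ (fun z => eval (g z).rep (P i) / eval (g z).rep (P j)) z =
          o (P l) - o (P j) := by
        intro l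
        rw [Finset.sum_eq_single l]
        · rw [Finsupp.single_eq_same, Nat.cast_one, one_mul, hord]
        · intro b _ hb
          rw [Finsupp.single_eq_of_ne hb, Nat.cast_zero, zero_mul]
        · intro h
          exact absurd (Finset.mem_univ l) h
      have h5 : ∑ i, (((Finsupp.single i₁ 1 : I →₀ ℕ) i : ℤ) - ((Finsupp.single i₂ 1 : I →₀ ℕ) i : ℤ)) *
          ordZ (fun z => eval (g z).rep (P i) / eval (g z).rep (P j)) z =
          o (P i₁) - o (P i₂) := by
        simp only [sub_mul]
        rw [Finset.sum_sub_distrib, hsum1, hsum1]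
        ring
      rw [h5]
      exact dvd_sub (hdvd i₁) (hdvd i₂))
    (by
      intro n hn
      by_contra hcon
      push Not at hcon
      obtain ⟨i₁, j₁, hij1⟩ := hcon
      have hT1 : (Finset.univ.filter (fun l => n l = n i₁)).Nonempty :=
        ⟨i₁, by simp⟩
      have hT2 : Finset.univ.filter (fun l => n l = n i₁) ≠ Finset.univ := by
        intro h
        have h1 : j₁ ∈ Finset.univ.filter (fun l => n l = n i₁) := by
          rw [h]
          exact Finset.mem_univ _
        rw [Finset.mem_filter] at h1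
        exact hij1 h1.2.symm
      have hTh : (∑ l ∈ Finset.univ.filter (fun l => n l = n i₁), P l).IsHomogeneous D :=
        IsHomogeneous.sum _ _ _ fun l _ => hP l
      have hh := nz_g hf hTh (hmin _ hT1 hT2)
      have hhalf : (1 / 2 : ℂ) ∈ puncturedDisc := by
        rw [mem_pd]
        norm_num
      have h1 := mem_pd.mp hhalf
      obtain ⟨ζ, ⟨h2, h3⟩, h4⟩ := (((hn () (n i₁) (1 / 2) h1.1 h1.2).and (hh _ hhalf)).and
        (hgz j _ hhalf)).exists
      rw [whc_sumX, map_sum] at h2
      simp only [eval_X] at h2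
      rw [← Finset.sum_div, ← map_sum] at h2
      apply h3
      rcases div_eq_zero_iff.mp h2 with h5 | h5
      · exact h5
      · exact absurd h5 h4)
    i j
  obtain ⟨v, hv, hve⟩ := hdich
  -- the value at a good point
  have hval : ∀ w : ℂ, w ≠ 0 → ¬ VanishesAt (P j) (f w) → ∃ zs : ℕ → ℂ,
      Tendsto zs atTop (𝓝[≠] 0) ∧
        ∀ᶠ n in atTop, v (zs n) = eval (f w).rep (P i) / eval (f w).rep (P j) := by
    intro w hw hwj
    obtain ⟨zs, h1, h2⟩ := hseq w hw
    have h3 : Tendsto zs atTop (𝓝[≠] 0) := by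
      rw [tendsto_nhdsWithin_iff]
      refine ⟨h1, ?_⟩
      filter_upwards [h2] with n hn
      exact hn.1.2
    refine ⟨zs, h3, ?_⟩
    filter_upwards [h2, h3.eventually hve, h3.eventually hv.eventually_analyticAt] with n hn h4 h5
    have hgw : g (zs n) = f w := by
      rw [hg]
      beta_reduce
      rw [hn.2]
    have h6 : ContinuousAt (fun z => eval (g z).rep (P i) / eval (g z).rep (P j)) (zs n) :=
      cont_quot hgh (hP i) (hP j) hn.1 (by rw [hgw]; exact hwj)
    have h7 : ∀ᶠ z in 𝓝[≠] (zs n), eval (g z).rep (P i) / eval (g z).rep (P j) = v z := by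
      filter_upwards [h4, hgz j (zs n) hn.1] with z hz hzj
      rw [← hz]
      have h8 : eval (g z).rep (P j) ≠ 0 := hzj
      rw [div_self h8, div_one]
    have h9 : Tendsto v (𝓝[≠] (zs n)) (𝓝 (eval (g (zs n)).rep (P i) / eval (g (zs n)).rep (P j))) :=
      (h6.tendsto.mono_left nhdsWithin_le_nhds).congr' h7
    have h10 : Tendsto v (𝓝[≠] (zs n)) (𝓝 (v (zs n))) :=
      h5.continuousAt.tendsto.mono_left nhdsWithin_le_nhds
    rw [tendsto_nhds_unique h10 h9, hgw]
  obtain ⟨w₀, hw₀, hw₀'⟩ := ((nz_f hf (hP j) (hnz j) 0).and self_mem_nhdsWithin).exists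
  have hord : 0 ≤ meromorphicOrderAt v 0 := by
    by_contra hcon
    push Not at hcon
    have h1 := (tendsto_cobounded_iff_meromorphicOrderAt_neg hv).mpr hcon
    obtain ⟨zs, h2, h3⟩ := hval w₀ hw₀' hw₀
    have h4 := h1.comp h2
    rw [← tendsto_norm_atTop_iff_cobounded] at h4
    have h5 : Tendsto (fun n : ℕ => ‖eval (f w₀).rep (P i) / eval (f w₀).rep (P j)‖) atTop atTop := by
      refine h4.congr' ?_
      filter_upwards [h3] with n hn
      simp only [Function.comp]
      rw [hn]
    exact not_tendsto_const_atTop _ _ h5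
  obtain ⟨C, hC⟩ := tendsto_nhds_of_meromorphicOrderAt_nonneg hv hord
  have hconst : ∀ w : ℂ, w ≠ 0 → ¬ VanishesAt (P j) (f w) →
      eval (f w).rep (P i) = C * eval (f w).rep (P j) := by
    intro w hw hwj
    obtain ⟨zs, h2, h3⟩ := hval w hw hwj
    have h4 := hC.comp h2
    have h5 : Tendsto (fun n : ℕ => eval (f w).rep (P i) / eval (f w).rep (P j)) atTop (𝓝 C) := by
      refine h4.congr' ?_
      filter_upwards [h3] with n hn
      simp only [Function.comp]
      rw [hn]
    have h6 := tendsto_nhds_unique tendsto_const_nhds h5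
    have h7 : eval (f w).rep (P j) ≠ 0 := hwj
    rw [← h6, div_mul_cancel₀ _ h7]
  refine ⟨C, fun z => ?_⟩
  have hQh : (P i - MvPolynomial.C C * P j).IsHomogeneous D := by
    refine (hP i).sub ?_
    simpa using (isHomogeneous_C (Fin (N + 1)) C).mul (hP j)
  rcases vanish_dich isOpen_univ isPreconnected_univ hf hQh with h1 | h1
  · have h2 : eval (f z).rep (P i - MvPolynomial.C C * P j) = 0 := h1 z (Set.mem_univ z)
    rw [map_sub, map_mul, eval_C] at h2
    exact sub_eq_zero.mp h2
  · exfalso
    obtain ⟨w, ⟨h2, h3⟩, h4⟩ := (((h1 0 (Set.mem_univ 0)).and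
      (nz_f hf (hP j) (hnz j) 0)).and self_mem_nhdsWithin).exists
    apply h2
    unfold VanishesAt
    rw [map_sub, map_mul, eval_C, hconst w h4 h3, sub_self]

end Pool.Agent.H68.FW
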