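import Pool.Agent.H68.FW.A2

/-!
# FW B: classes of linear forms along an entire curve

`ratio_of_pow`: `dot (a i)^e = C * dot (a j)^e` along `f`, `e ≥ 1`; if `C = 0` then `dot (a i)` vanishes along `f` and `C' = 0` works; otherwise `C = C'^e` and
`∏_{ω^e = 1} (lin (a i) - ω C' lin (a j))` vanishes along `f` (product over the `e` roots of unity; `X^e - Y^e = ∏ (X - ω Y)`, Mathlib: `pow_sub_pow_eq_prod_sub_mul` or similar with `IsPrimitiveRoot`), so one factor does (`vanishes_mul`, induction).
`classes_zero`: `fw e a` vanishes along `f`, `q (q - 2) < e`. For `T : Finset (Fin q)` let `V T` be the statement `∀ z, VanishesAt (∑ i ∈ T, lin (a i)^e) (f z)`. `V univ` holds. Every finite set with `V` is a disjoint union of minimal nonempty sets with `V`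
(strong induction on the cardinality: if `T` is not minimal there is `∅ ≠ T' ⊂ T` with `V T'`, then `V (T \ T')`). For a minimal `T` with one element `i`: `lin (a i)` vanishes along `f` (`e ≥ 1`). If `card T ≥ 2`: `const_ratio` for the family
`(lin (a i)^e)_{i ∈ T}` (`k = card T ≤ q`, so `k (k-2) ≤ q (q-2) < e`) and `ratio_of_pow` give constants `c i` with `dot (a i) = c i * dot (a r)` along `f`, `r` a chosen element of `T`, `c r = 1`
(`dot (a r)` does not vanish identically along `f` by minimality), and `∑_{i ∈ T} (c i)^e * dot (a r)^e = 0` along `f` gives `∑ (c i)^e = 0`. `rep i = r` for `i ∈ T`. `E = ∅`.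
(`e = 0` is excluded by `q (q-2) < e`... for `q ≤ 2` one has `0 < e`.)
`classes_compl`: `fw e a` has no zero along `f`, `(q + 1) (q - 1) < e`. Same argument for the family of `q + 1` forms `lin (a i)^e` (`i : Fin q`) and `- fw e a` (index type `Option (Fin q)`): its sum is the zero polynomial. The minimal set which contains `none` is not `{none}`
(`fw e a` does not vanish along `f`), let `r` be one of its elements in `Fin q` and `E = {r}`: in this class the constants are given by `const_ratio` (all ratios within the class), there is no condition on the sum. If `q = 0` then `fw e a = 0`, impossible.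
(`dot (a r)` does not vanish identically since the class is minimal with at least two elements.)
-/

open MvPolynomial

namespace Pool.Agent.H68.FW

open Pool.Agent.H17 Pool.Agent.H62.Log

private theorem B_exists_factor {N : ℕ} {f : ℂ → PN N} (hf : HolomorphicInto f Set.univ)
    {ι : Type} [DecidableEq ι] {P : ι → MvPolynomial (Fin (N + 1)) ℂ}
    (hP : ∀ i, (P i).IsHomogeneous 1) (s : Finset ι) :
    (∀ z, VanishesAt (∏ i ∈ s, P i) (f z)) → ∃ i ∈ s, ∀ z, VanishesAt (P i) (f z) := by
  induction s using Finset.induction_on with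
  | empty =>
    intro h
    have h0 := h 0
    unfold VanishesAt at h0
    simp at h0
  | insert x s hx ih =>
    intro h
    rw [Finset.prod_insert hx] at h
    have hhom : (∏ i ∈ s, P i).IsHomogeneous (∑ _i ∈ s, 1) :=
      IsHomogeneous.prod s P (fun _ => 1) fun i _ => hP i
    rcases vanishes_mul hf (hP x) hhom h with h1 | h1
    · exact ⟨x, Finset.mem_insert_self _ _, h1⟩
    · obtain ⟨i, hi, h2⟩ := ih h1
      exact ⟨i, Finset.mem_insert_of_mem hi, h2⟩

private theorem B_dot_sub {N : ℕ} (a b x : Fin (N + 1) → ℂ) (c : ℂ) :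
    dot (fun j => a j - c * b j) x = dot a x - c * dot b x := by
  unfold dot
  rw [Finset.mul_sum, ← Finset.sum_sub_distrib]
  exact Finset.sum_congr rfl fun j _ => by ring

theorem ratio_of_pow {N e : ℕ} (he : 1 ≤ e) {f : ℂ → PN N} (hf : HolomorphicInto f Set.univ)
    {a b : Fin (N + 1) → ℂ} {C : ℂ}
    (h : ∀ z, eval (f z).rep (lin a ^ e) = C * eval (f z).rep (lin b ^ e)) :
    ∃ C' : ℂ, ∀ z, dot a (f z).rep = C' * dot b (f z).rep := by
  classical
  have he0 : e ≠ 0 := by omega
  simp only [map_pow, eval_lin] at h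
  obtain ⟨c, hc⟩ := IsAlgClosed.exists_pow_nat_eq C (show 0 < e by omega)
  set s : Finset ℂ := Polynomial.nthRootsFinset e (1 : ℂ) with hs
  have hmem : ∀ ω : ℂ, ω ^ e = 1 → ω ∈ s := fun ω hω => by
    rw [hs, Polynomial.mem_nthRootsFinset (by omega)]
    exact hω
  obtain ⟨ω, -, hω⟩ := B_exists_factor hf
    (P := fun ω : ℂ => lin (fun j => a j - ω * c * b j))
    (fun ω => lin_isHomogeneous _) s (by
      intro z
      unfold VanishesAt
      rw [map_prod]
      have hz : dot a (f z).rep ^ e = (c * dot b (f z).rep) ^ e := by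
        rw [mul_pow, hc]
        exact h z
      by_cases h0 : c * dot b (f z).rep = 0
      · refine Finset.prod_eq_zero (hmem 1 (one_pow e)) ?_
        rw [eval_lin, B_dot_sub]
        rw [h0, zero_pow he0] at hz
        have h1 : dot a (f z).rep = 0 := pow_eq_zero_iff he0 |>.1 hz
        rw [h1, one_mul, h0, sub_zero]
      · refine Finset.prod_eq_zero (hmem (dot a (f z).rep / (c * dot b (f z).rep)) ?_) ?_
        · rw [div_pow, hz, div_self (pow_ne_zero e h0)]
        · rw [eval_lin, B_dot_sub, mul_assoc, div_mul_cancel₀ _ h0, sub_self])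
  refine ⟨ω * c, fun z => ?_⟩
  have h1 := hω z
  unfold VanishesAt at h1
  rw [eval_lin, B_dot_sub] at h1
  exact sub_eq_zero.1 h1

/-- the partition into minimal sets -/
private theorem B_partition {I : Type} [DecidableEq I] (V : Finset I → Prop)
    (hV : ∀ T T', T' ⊆ T → V T → V T' → V (T \ T')) (n : ℕ) : ∀ T : Finset I, T.card = n → V T →
    ∃ cls : I → Finset I, ∀ i ∈ T, i ∈ cls i ∧ cls i ⊆ T ∧ V (cls i) ∧
      (∀ T' ⊆ cls i, T'.Nonempty → V T' → T' = cls i) ∧ ∀ j ∈ cls i, cls j = cls i := by
  classical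
  induction n using Nat.strong_induction_on with
  | _ n ih =>
    intro T hn hT
    rcases T.eq_empty_or_nonempty with h0 | hne
    · refine ⟨fun _ => ∅, fun i hi => ?_⟩
      rw [h0] at hi
      exact absurd hi (Finset.notMem_empty i)
    · obtain ⟨T0, hT0, hmin⟩ := Finset.exists_min_image
        (T.powerset.filter (fun S => S.Nonempty ∧ V S)) Finset.card
        ⟨T, by rw [Finset.mem_filter, Finset.mem_powerset]; exact ⟨subset_rfl, hne, hT⟩⟩
      rw [Finset.mem_filter, Finset.mem_powerset] at hT0
      obtain ⟨hT0s, hT0n, hT0V⟩ := hT0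
      have hmin' : ∀ T' ⊆ T0, T'.Nonempty → V T' → T' = T0 := by
        intro T' h1 h2 h3
        refine Finset.eq_of_subset_of_card_le h1 (hmin T' ?_)
        rw [Finset.mem_filter, Finset.mem_powerset]
        exact ⟨h1.trans hT0s, h2, h3⟩
      have hlt : (T \ T0).card < n := by
        rw [← hn]
        refine Finset.card_lt_card ?_
        rw [Finset.ssubset_iff_subset_ne]
        refine ⟨Finset.sdiff_subset, fun h => ?_⟩
        obtain ⟨x, hx⟩ := hT0n
        have h1 : x ∈ T \ T0 := by
          rw [h]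
          exact hT0s hx
        exact (Finset.mem_sdiff.1 h1).2 hx
      obtain ⟨cls, hcls⟩ := ih _ hlt (T \ T0) rfl (hV T T0 hT0s hT hT0V)
      refine ⟨fun i => if i ∈ T0 then T0 else cls i, fun i hi => ?_⟩
      by_cases hi0 : i ∈ T0
      · simp only [hi0, if_true]
        refine ⟨trivial, hT0s, hT0V, hmin', fun j hj => ?_⟩
        simp only [hj, if_true]
      · have hi' : i ∈ T \ T0 := Finset.mem_sdiff.2 ⟨hi, hi0⟩
        obtain ⟨h1, h2, h3, h4, h5⟩ := hcls i hi'
        simp only [hi0, if_false]
        refine ⟨h1, h2.trans Finset.sdiff_subset, h3, h4, fun j hj => ?_⟩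
        have hj0 : j ∉ T0 := (Finset.mem_sdiff.1 (h2 hj)).2
        simp only [hj0, if_false]
        exact h5 j hj

private theorem B_core {N q e : ℕ} {f : ℂ → PN N} (hf : HolomorphicInto f Set.univ)
    {a : Fin q → Fin (N + 1) → ℂ} {I : Type} [Fintype I] [DecidableEq I]
    (P : I → MvPolynomial (Fin (N + 1)) ℂ) (emb : Fin q → I) (hinj : Function.Injective emb)
    (hemb : ∀ i, P (emb i) = lin (a i) ^ e) (hP : ∀ i, (P i).IsHomogeneous e)
    (hpow : ∀ i, (∃ (L : MvPolynomial (Fin (N + 1)) ℂ) (m : ℕ), L.IsHomogeneous m ∧ P i = L ^ e) ∨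
      ∀ z, ¬ VanishesAt (P i) (f z))
    (hsum : ∀ z, VanishesAt (∑ i, P i) (f z))
    (he : Fintype.card I * (Fintype.card I - 2) < e) :
    ∃ (cls : I → Finset I) (rep : Fin q → Fin q) (c : Fin q → ℂ),
      (∀ i, rep (rep i) = rep i) ∧ (∀ i, c (rep i) = 1) ∧
      (∀ i z, dot (a i) (f z).rep = c i * dot (a (rep i)) (f z).rep) ∧
      (∀ i j x, x ∈ cls (emb i) → x ∈ cls (emb j) → rep i = rep j) ∧
      ∀ i, rep i = i → (∀ x ∈ cls (emb i), x ∈ Set.range emb) →
        (∀ z, dot (a i) (f z).rep = 0) ∨
        ∑ j ∈ Finset.univ.filter (fun j => rep j = i), c j ^ e = 0 := by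
  classical
  have he1 : 1 ≤ e := by omega
  have he0 : e ≠ 0 := by omega
  let V : Finset I → Prop := fun T => ∀ z, VanishesAt (∑ i ∈ T, P i) (f z)
  obtain ⟨cls, hcls⟩ := B_partition V (by
    intro T T' hTT h1 h2 z
    have h3 := h1 z
    have h4 := h2 z
    unfold VanishesAt at h3 h4 ⊢
    have h5 : ∑ i ∈ T \ T', P i = ∑ i ∈ T, P i - ∑ i ∈ T', P i := by
      rw [← Finset.sum_sdiff hTT]
      ring
    rw [h5, map_sub, h3, h4, sub_zero]) _ Finset.univ rfl hsum
  have hc1 : ∀ i, i ∈ cls i := fun i => (hcls i (Finset.mem_univ i)).1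
  have hc3 : ∀ i, V (cls i) := fun i => (hcls i (Finset.mem_univ i)).2.2.1
  have hc4 : ∀ i, ∀ T' ⊆ cls i, T'.Nonempty → V T' → T' = cls i := fun i =>
    (hcls i (Finset.mem_univ i)).2.2.2.1
  have hc5 : ∀ i, ∀ j ∈ cls i, cls j = cls i := fun i => (hcls i (Finset.mem_univ i)).2.2.2.2
  -- the ratios
  have hratio : ∀ i j : Fin q, emb j ∈ cls (emb i) →
      ∃ C : ℂ, ∀ z, dot (a i) (f z).rep = C * dot (a j) (f z).rep := by
    intro i j hj
    obtain ⟨C, hC⟩ := const_ratio hf (I := cls (emb i)) (P := fun x => P x.1) (D := e) (e := e)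
      (fun x => hP x.1) (fun x => hpow x.1)
      (by
        intro z
        rw [Finset.sum_coe_sort (cls (emb i)) P]
        exact hc3 _ z)
      (by
        intro T hT hTne
        by_contra hcon
        push Not at hcon
        apply hTne
        have h1 : T.map ⟨Subtype.val, Subtype.val_injective⟩ = cls (emb i) := by
          refine hc4 _ _ ?_ (hT.map) ?_
          · intro x hx
            rw [Finset.mem_map] at hx
            obtain ⟨y, -, rfl⟩ := hx
            exact y.2
          · intro z
            rw [Finset.sum_map]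
            exact hcon z
        rw [Finset.eq_univ_iff_forall]
        intro x
        have h2 : x.1 ∈ T.map ⟨Subtype.val, Subtype.val_injective⟩ := by
          rw [h1]
          exact x.2
        rw [Finset.mem_map] at h2
        obtain ⟨y, hy, hyx⟩ := h2
        have h3 : y = x := Subtype.ext hyx
        rwa [← h3])
      (by
        rw [Fintype.card_coe]
        have h1 : (cls (emb i)).card ≤ Fintype.card I := Finset.card_le_univ _
        exact lt_of_le_of_lt (Nat.mul_le_mul h1 (Nat.sub_le_sub_right h1 2)) he)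
      ⟨emb i, hc1 _⟩ ⟨emb j, hj⟩
    refine ratio_of_pow he1 hf (C := C) fun z => ?_
    have h1 := hC z
    simp only [hemb] at h1
    exact h1
  -- representatives
  have hr : ∀ S : Finset I, ∃ r : Option (Fin q), (∃ j, emb j ∈ S) → ∃ j, r = some j ∧ emb j ∈ S := by
    intro S
    by_cases h : ∃ j, emb j ∈ S
    · obtain ⟨j, hj⟩ := h
      exact ⟨some j, fun _ => ⟨j, rfl, hj⟩⟩
    · exact ⟨none, fun h' => absurd h' h⟩
  choose r hr using hr
  have hrep : ∀ i : Fin q, ∃ j, r (cls (emb i)) = some j ∧ emb j ∈ cls (emb i) := fun i =>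
    hr _ ⟨i, hc1 _⟩
  choose rep hrep1 hrep2 using hrep
  have hrep_eq : ∀ i j, cls (emb i) = cls (emb j) → rep i = rep j := by
    intro i j h
    have h1 := hrep1 i
    rw [h, hrep1 j] at h1
    exact (Option.some.inj h1).symm
  have hclsrep : ∀ i, cls (emb (rep i)) = cls (emb i) := fun i => hc5 _ _ (hrep2 i)
  have hrr : ∀ i, rep (rep i) = rep i := fun i => hrep_eq _ _ (hclsrep i)
  have hcex : ∀ i, ∃ C : ℂ, (i = rep i → C = 1) ∧
      ∀ z, dot (a i) (f z).rep = C * dot (a (rep i)) (f z).rep := by
    intro i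
    by_cases h : i = rep i
    · refine ⟨1, fun _ => rfl, fun z => ?_⟩
      rw [← h, one_mul]
    · obtain ⟨C, hC⟩ := hratio i (rep i) (hrep2 i)
      exact ⟨C, fun h' => absurd h' h, hC⟩
  choose c hc hceq using hcex
  refine ⟨cls, rep, c, hrr, fun i => hc _ (hrr i).symm, hceq, ?_, ?_⟩
  · intro i j x hxi hxj
    exact hrep_eq _ _ ((hc5 _ _ hxi).symm.trans (hc5 _ _ hxj))
  · intro i hi hrange
    by_cases h0 : ∀ z, dot (a i) (f z).rep = 0
    · exact Or.inl h0
    · right
      push Not at h0
      obtain ⟨z, hz⟩ := h0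
      have hset : cls (emb i) =
          (Finset.univ.filter (fun j => rep j = i)).map ⟨emb, hinj⟩ := by
        ext x
        rw [Finset.mem_map]
        constructor
        · intro hx
          obtain ⟨j, rfl⟩ := hrange x hx
          refine ⟨j, ?_, rfl⟩
          rw [Finset.mem_filter]
          refine ⟨Finset.mem_univ _, ?_⟩
          rw [← hi]
          exact hrep_eq _ _ (hc5 _ _ hx)
        · rintro ⟨j, hj, rfl⟩
          rw [Finset.mem_filter] at hj
          have h1 := hclsrep j
          rw [hj.2] at h1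
          rw [h1]
          exact hc1 _
      have h1 := hc3 (emb i) z
      unfold VanishesAt at h1
      rw [hset, Finset.sum_map, map_sum] at h1
      have h2 : ∀ j ∈ Finset.univ.filter (fun j => rep j = i),
          eval (f z).rep (P ((⟨emb, hinj⟩ : Fin q ↪ I) j)) =
            c j ^ e * dot (a i) (f z).rep ^ e := by
        intro j hj
        rw [Finset.mem_filter] at hj
        show eval (f z).rep (P (emb j)) = _
        rw [hemb, map_pow, eval_lin, hceq j z, hj.2, mul_pow]
      rw [Finset.sum_congr rfl h2, ← Finset.sum_mul] at h1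
      exact (mul_eq_zero.1 h1).resolve_right (pow_ne_zero e hz)

theorem classes_zero {N q e : ℕ} {f : ℂ → PN N} (hf : HolomorphicInto f Set.univ)
    {a : Fin q → Fin (N + 1) → ℂ} (he : q * (q - 2) < e) (h : ∀ z, VanishesAt (fw e a) (f z)) :
    ∃ rep c, Classes a e (Set.range fun z => (f z).rep) ∅ rep c := by
  obtain ⟨cls, rep, c, h1, h2, h3, -, h5⟩ := B_core hf (a := a) (e := e)
    (fun i : Fin q => lin (a i) ^ e) id Function.injective_id (fun i => rfl)
    (fun i => by simpa using (lin_isHomogeneous (a i)).pow e)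
    (fun i => Or.inl ⟨lin (a i), 1, lin_isHomogeneous _, rfl⟩) h
    (by rw [Fintype.card_fin]; exact he)
  refine ⟨rep, c, ⟨by simp, h1, h2, ?_, ?_⟩⟩
  · rintro i x ⟨z, rfl⟩
    exact h3 i z
  · intro i hi _
    rcases h5 i hi (fun x _ => ⟨x, rfl⟩) with h6 | h6
    · left
      rintro x ⟨z, rfl⟩
      exact h6 z
    · exact Or.inr h6

theorem classes_compl {N q e : ℕ} {f : ℂ → PN N} (hf : HolomorphicInto f Set.univ)
    {a : Fin q → Fin (N + 1) → ℂ} (he : (q + 1) * (q - 1) < e) (h : ∀ z, ¬ VanishesAt (fw e a) (f z)) :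
    ∃ E rep c, Classes a e (Set.range fun z => (f z).rep) E rep c := by
  classical
  obtain ⟨cls, rep, c, h1, h2, h3, h4, h5⟩ := B_core hf (a := a) (e := e)
    (fun o : Option (Fin q) => o.elim (-fw e a) fun i => lin (a i) ^ e) some
    (Option.some_injective _) (fun i => rfl)
    (by
      rintro (_ | i)
      · exact (fw_isHomogeneous e a).neg
      · simpa using (lin_isHomogeneous (a i)).pow e)
    (by
      rintro (_ | i)
      · right
        intro z hz
        apply h z
        unfold VanishesAt at hz ⊢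
        simp only [Option.elim, map_neg, neg_eq_zero] at hz
        exact hz
      · exact Or.inl ⟨lin (a i), 1, lin_isHomogeneous _, rfl⟩)
    (by
      intro z
      rw [Fintype.sum_option]
      unfold VanishesAt
      simp only [Option.elim]
      have : -fw e a + ∑ i, lin (a i) ^ e = 0 := by
        unfold fw
        ring
      rw [this, map_zero])
    (by
      rw [Fintype.card_option, Fintype.card_fin]
      have : q + 1 - 2 = q - 1 := by omega
      rw [this]
      exact he)
  by_cases hbad : ∃ i, (none : Option (Fin q)) ∈ cls (some i)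
  · obtain ⟨i1, hi1⟩ := hbad
    refine ⟨{rep i1}, rep, c, ⟨by simp, h1, h2, ?_, ?_⟩⟩
    · rintro i x ⟨z, rfl⟩
      exact h3 i z
    · intro i hi hiE
      have hrange : ∀ x ∈ cls (some i), x ∈ Set.range (some : Fin q → Option (Fin q)) := by
        rintro (_ | j) hx
        · exfalso
          apply hiE
          rw [Finset.mem_singleton, ← hi]
          exact h4 i i1 none hx hi1
        · exact ⟨j, rfl⟩
      rcases h5 i hi hrange with h6 | h6
      · left
        rintro x ⟨z, rfl⟩
        exact h6 z
      · exact Or.inr h6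
  · refine ⟨∅, rep, c, ⟨by simp, h1, h2, ?_, ?_⟩⟩
    · rintro i x ⟨z, rfl⟩
      exact h3 i z
    · intro i hi _
      have hrange : ∀ x ∈ cls (some i), x ∈ Set.range (some : Fin q → Option (Fin q)) := by
        rintro (_ | j) hx
        · exact absurd ⟨i, hx⟩ hbad
        · exact ⟨j, rfl⟩
      rcases h5 i hi hrange with h6 | h6
      · left
        rintro x ⟨z, rfl⟩
        exact h6 z
      · exact Or.inr h6

end Pool.Agent.H68.FW
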