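import Pool.Agent.H68.FW.Defs

/-!
# FW C: transcendence degrees

`M = AlgebraicIndependent.matroid ℚ ℂ`; its closure operator is the relative algebraic closure (`AlgebraicIndependent.matroid_closure_eq`); `rk s = M.eRk s`.
`rank_group`: assign to every index one number: to a representative `r` whose class does not vanish on `w 0, w 1` the number `dot (a r) (w 0)`; in this class choose (if `r ∉ E`) an index `i1 ≠ r` (exists, because `c r = 1` and `∑ (c j)^e = 0`, `e ≥ 1`) and assign to it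
`dot (a r) (w 1)`; to every other index `i` of the class `c i`; to the indices of classes vanishing on `w 0, w 1` the number `0`. If `r ∈ E` assign `c i` to every index `i ≠ r` of the class and take the additional number `dot (a r) (w 1)`. These are at most `q + card E` numbers. All `dot (a i) (w k)` are in the
closure of this set: `c i1` is algebraic over the other `c j` of its class (`(c i1)^e = - ∑ (c j)^e`), `dot (a i) (w k) = c i * dot (a r) (w k)`. (`eRk_le_encard`, `eRk_closure_eq`, `eRk_mono`.)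
`rank_lower`: `w 0, w 1` linearly independent: there are columns `s ≠ t` with `w 0 s * w 1 t - w 0 t * w 1 s ≠ 0`; let `w'` be the two combinations with `w' 0 s = 1, w' 0 t = 0, w' 1 s = 0, w' 1 t = 1`. Then
`a i s = dot (a i) (w' 0) - ∑_{j ≠ s,t} a i j * w' 0 j` and `a i t = dot (a i) (w' 1) - ∑_{j ≠ s,t} a i j * w' 1 j`. So all `a i j` lie in the closure of the union of `{w' k j | j ≠ s, t}` (`2 (N - 1)` numbers), `{a i j | j ≠ s,t}` (`card I * (N - 1)` numbers) and the set of the `dot (a i) (w' k)`. The rank of the set of all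
`a i j` is `card I * (N + 1)` (algebraically independent: `Indep.eRk_eq_encard`, injective family). Subadditivity: `Matroid.eRk_union_le_eRk_add_eRk`.
(`N ≥ 1` because there are two linearly independent vectors.)
-/

open MvPolynomial

namespace Pool.Agent.H68.FW

open Pool.Agent.H17 Pool.Agent.H62.Log

/-- The rank over `ℚ` (transcendence degree) of a set of complex numbers. -/
noncomputable def rk (s : Set ℂ) : ℕ∞ := (AlgebraicIndependent.matroid ℚ ℂ).eRk s

private theorem C_mem {T : Set ℂ} {x : ℂ} :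
    x ∈ (AlgebraicIndependent.matroid ℚ ℂ).closure T ↔
      x ∈ Subalgebra.algebraicClosure (Algebra.adjoin ℚ T) ℂ := by
  rw [AlgebraicIndependent.matroid_closure_eq]
  rfl

private theorem C_sub {T : Set ℂ} {x : ℂ} (h : x ∈ T) :
    x ∈ Subalgebra.algebraicClosure (Algebra.adjoin ℚ T) ℂ := by
  rw [← C_mem]
  exact Matroid.subset_closure _ _ (Set.subset_univ _) h

private theorem C_pow {T : Set ℂ} {x : ℂ} {e : ℕ} (he : 1 ≤ e)
    (h : x ^ e ∈ Subalgebra.algebraicClosure (Algebra.adjoin ℚ T) ℂ) :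
    x ∈ Subalgebra.algebraicClosure (Algebra.adjoin ℚ T) ℂ := by
  rw [Subalgebra.mem_algebraicClosure] at h ⊢
  exact IsAlgebraic.of_pow he h

private theorem C_rk_le {s T : Set ℂ}
    (h : ∀ x ∈ s, x ∈ Subalgebra.algebraicClosure (Algebra.adjoin ℚ T) ℂ) : rk s ≤ T.encard := by
  unfold rk
  calc (AlgebraicIndependent.matroid ℚ ℂ).eRk s
      ≤ (AlgebraicIndependent.matroid ℚ ℂ).eRk ((AlgebraicIndependent.matroid ℚ ℂ).closure T) :=
        Matroid.eRk_mono _ fun x hx => C_mem.mpr (h x hx)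
    _ = (AlgebraicIndependent.matroid ℚ ℂ).eRk T := Matroid.eRk_closure_eq _ _
    _ ≤ T.encard := Matroid.eRk_le_encard _ _

private theorem C_rk_mono {s t : Set ℂ} (h : s ⊆ t) : rk s ≤ rk t := Matroid.eRk_mono _ h

private theorem C_rk_le_encard (s : Set ℂ) : rk s ≤ s.encard := Matroid.eRk_le_encard _ _

theorem rk_union_le (s t : Set ℂ) : rk (s ∪ t) ≤ rk s + rk t :=
  Matroid.eRk_union_le_eRk_add_eRk _ _ _

theorem rk_iUnion_le {I : Type} [Fintype I] (s : I → Set ℂ) : rk (⋃ i, s i) ≤ ∑ i, rk (s i) := by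
  classical
  have h : ∀ F : Finset I, rk (⋃ i ∈ F, s i) ≤ ∑ i ∈ F, rk (s i) := by
    intro F
    induction F using Finset.induction_on with
    | empty =>
      simp only [Finset.notMem_empty, Set.iUnion_of_empty, Set.iUnion_empty, Finset.sum_empty]
      exact (C_rk_le_encard ∅).trans (by simp)
    | insert i F hi ih =>
      rw [Finset.set_biUnion_insert, Finset.sum_insert hi]
      exact (rk_union_le _ _).trans (add_le_add le_rfl ih)
  have h1 := h Finset.univ
  simpa using h1

private theorem C_encard {q : ℕ} (x y : ℂ) (c : Fin q → ℂ) (F : Finset (Fin q)) :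
    (({x, y} : Set ℂ) ∪ c '' (F : Set (Fin q))).encard ≤ ((2 + F.card : ℕ) : ℕ∞) := by
  have h1 := Set.encard_union_le ({x, y} : Set ℂ) (c '' (F : Set (Fin q)))
  have h2 : ({x, y} : Set ℂ).encard ≤ 2 := by
    refine (Set.encard_insert_le {y} x).trans ?_
    rw [Set.encard_singleton]
    exact le_of_eq one_add_one_eq_two
  have h3 := Set.encard_image_le c (F : Set (Fin q))
  rw [Set.encard_coe_eq_coe_finsetCard] at h3
  calc _ ≤ _ := h1
    _ ≤ 2 + (F.card : ℕ∞) := add_le_add h2 h3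
    _ = _ := by push_cast; rfl

private theorem C_class {N q e : ℕ} (he : 1 ≤ e) {a : Fin q → Fin (N + 1) → ℂ}
    {w : Fin 2 → Fin (N + 1) → ℂ} {E : Finset (Fin q)} {rep : Fin q → Fin q} {c : Fin q → ℂ}
    (h : Classes a e (Set.range w) E rep c) (r : Fin q) :
    rk {y | ∃ i k, rep i = r ∧ y = dot (a i) (w k)} ≤
      (((Finset.univ.filter fun j => rep j = r).card + if r ∈ E then 1 else 0 : ℕ) : ℕ∞) := by
  classical
  by_cases hr : ∃ i, rep i = r
  swap
  · have h1 : {y | ∃ i k, rep i = r ∧ y = dot (a i) (w k)} = (∅ : Set ℂ) := by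
      ext y
      constructor
      · rintro ⟨i, k, hi, _⟩
        exact absurd ⟨i, hi⟩ hr
      · intro hy
        exact absurd hy (Set.notMem_empty y)
    rw [h1]
    exact (C_rk_le_encard ∅).trans (by simp)
  have hrr : rep r = r := by
    obtain ⟨i, hi⟩ := hr
    rw [← hi, h.rep_rep]
  have hc1 : c r = 1 := by
    have h1 := h.c_rep r
    rwa [hrr] at h1
  have hval : ∀ i k, rep i = r → dot (a i) (w k) = c i * dot (a r) (w k) := by
    intro i k hi
    have h1 := h.eq i (w k) ⟨k, rfl⟩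
    rwa [hi] at h1
  obtain ⟨F, hF⟩ : ∃ F, F = Finset.univ.filter fun j => rep j = r := ⟨_, rfl⟩
  have hmF : ∀ j, j ∈ F ↔ rep j = r := by
    intro j
    rw [hF]
    simp
  have hrF : r ∈ F := (hmF r).mpr hrr
  have hFc : 1 ≤ F.card := Finset.card_pos.mpr ⟨r, hrF⟩
  rw [← hF]
  by_cases hv : ∀ x ∈ Set.range w, dot (a r) x = 0
  · refine (C_rk_le (T := ∅) ?_).trans (by simp)
    rintro y ⟨i, k, hi, rfl⟩
    rw [hval i k hi, hv (w k) ⟨k, rfl⟩, mul_zero]
    exact zero_mem _
  by_cases hE : r ∈ E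
  · rw [if_pos hE]
    refine (C_rk_le (T := {dot (a r) (w 0), dot (a r) (w 1)} ∪ c '' ((F.erase r : Finset (Fin q)) :
      Set (Fin q))) ?_).trans ((C_encard _ _ _ _).trans ?_)
    · rintro y ⟨i, k, hi, rfl⟩
      rw [hval i k hi]
      apply mul_mem
      · by_cases hir : i = r
        · rw [hir, hc1]
          exact one_mem _
        · apply C_sub
          right
          exact ⟨i, Finset.mem_coe.mpr (Finset.mem_erase.mpr ⟨hir, (hmF i).mpr hi⟩), rfl⟩
      · apply C_sub
        left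
        fin_cases k
        · exact Or.inl rfl
        · exact Or.inr rfl
    · rw [Finset.card_erase_of_mem hrF]
      exact_mod_cast (by omega : 2 + (F.card - 1) ≤ F.card + 1)
  · rw [if_neg hE, add_zero]
    have hs : ∑ j ∈ F, c j ^ e = 0 := by
      rcases h.sum r hrr hE with h1 | h1
      · exact absurd h1 hv
      · rw [hF]
        exact h1
    obtain ⟨i1, hi1, hne⟩ : ∃ i1 ∈ F, i1 ≠ r := by
      by_contra hcon
      push Not at hcon
      have h1 : F = {r} := by
        ext j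
        rw [Finset.mem_singleton]
        exact ⟨hcon j, fun hj => hj ▸ hrF⟩
      rw [h1, Finset.sum_singleton, hc1, one_pow] at hs
      exact one_ne_zero hs
    have hi1' : i1 ∈ F.erase r := Finset.mem_erase.mpr ⟨hne, hi1⟩
    obtain ⟨T, hT⟩ : ∃ T : Set ℂ, T = {dot (a r) (w 0), dot (a r) (w 1)} ∪
      c '' (((F.erase r).erase i1 : Finset (Fin q)) : Set (Fin q)) := ⟨_, rfl⟩
    have hcj : ∀ j ∈ F, j ≠ i1 → c j ∈ Subalgebra.algebraicClosure (Algebra.adjoin ℚ T) ℂ := by
      intro j hj hj1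
      by_cases hjr : j = r
      · rw [hjr, hc1]
        exact one_mem _
      · apply C_sub
        rw [hT]
        right
        exact ⟨j, Finset.mem_coe.mpr (Finset.mem_erase.mpr ⟨hj1, Finset.mem_erase.mpr ⟨hjr, hj⟩⟩),
          rfl⟩
    have hci : c i1 ∈ Subalgebra.algebraicClosure (Algebra.adjoin ℚ T) ℂ := by
      apply C_pow he
      have h1 : c i1 ^ e = - ∑ j ∈ F.erase i1, c j ^ e := by
        rw [← Finset.add_sum_erase F _ hi1] at hs
        exact eq_neg_of_add_eq_zero_left hs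
      rw [h1]
      apply neg_mem
      apply sum_mem
      intro j hj
      obtain ⟨hj1, hj2⟩ := Finset.mem_erase.mp hj
      exact pow_mem (hcj j hj2 hj1) e
    refine (C_rk_le (T := T) ?_).trans ?_
    · rintro y ⟨i, k, hi, rfl⟩
      rw [hval i k hi]
      apply mul_mem
      · by_cases h1 : i = i1
        · rw [h1]
          exact hci
        · exact hcj i ((hmF i).mpr hi) h1
      · apply C_sub
        rw [hT]
        left
        fin_cases k
        · exact Or.inl rfl
        · exact Or.inr rfl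
    · rw [hT]
      refine (C_encard _ _ _ _).trans ?_
      rw [Finset.card_erase_of_mem hi1', Finset.card_erase_of_mem hrF]
      have h2 : 1 ≤ (F.erase r).card := Finset.card_pos.mpr ⟨i1, hi1'⟩
      rw [Finset.card_erase_of_mem hrF] at h2
      exact_mod_cast (by omega : 2 + (F.card - 1 - 1) ≤ F.card)

theorem rank_group {N q e : ℕ} (he : 1 ≤ e) {a : Fin q → Fin (N + 1) → ℂ} {w : Fin 2 → Fin (N + 1) → ℂ}
    {E : Finset (Fin q)} {rep : Fin q → Fin q} {c : Fin q → ℂ} (h : Classes a e (Set.range w) E rep c) :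
    rk (Set.range fun p : Fin q × Fin 2 => dot (a p.1) (w p.2)) ≤ q + E.card := by
  classical
  have h1 : (Set.range fun p : Fin q × Fin 2 => dot (a p.1) (w p.2)) ⊆
      ⋃ r : Fin q, {y | ∃ i k, rep i = r ∧ y = dot (a i) (w k)} := by
    rintro y ⟨p, rfl⟩
    rw [Set.mem_iUnion]
    exact ⟨rep p.1, p.1, p.2, rfl, rfl⟩
  refine (C_rk_mono h1).trans ((rk_iUnion_le _).trans
    ((Finset.sum_le_sum fun r _ => C_class he h r).trans ?_))
  rw [← Nat.cast_sum, Finset.sum_add_distrib]
  have h2 : ∑ r : Fin q, (Finset.univ.filter fun j => rep j = r).card = q := by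
    rw [← Finset.card_eq_sum_card_fiberwise (s := Finset.univ) (t := Finset.univ)
      (fun x _ => Finset.mem_coe.mpr (Finset.mem_univ _)), Finset.card_univ, Fintype.card_fin]
  have h3 : ∑ r : Fin q, (if r ∈ E then 1 else 0) = E.card := by
    simp
  rw [h2, h3]
  push_cast
  exact le_rfl

private theorem C_minor {N : ℕ} {w : Fin 2 → Fin (N + 1) → ℂ} (hw : LinearIndependent ℂ w) :
    ∃ s t, s ≠ t ∧ w 0 s * w 1 t - w 0 t * w 1 s ≠ 0 := by
  by_contra hcon
  push Not at hcon
  have hcon' : ∀ s t, w 0 s * w 1 t - w 0 t * w 1 s = 0 := by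
    intro s t
    by_cases hst : s = t
    · rw [hst]
      ring
    · exact hcon s t hst
  have h0 : w 0 ≠ 0 := hw.ne_zero 0
  obtain ⟨s, hs⟩ : ∃ s, w 0 s ≠ 0 := by
    by_contra h1
    push Not at h1
    exact h0 (funext h1)
  have h2 := Fintype.linearIndependent_iff.mp hw ![w 1 s, - w 0 s] (by
    funext t
    simp only [Fin.sum_univ_two, Matrix.cons_val_zero, Matrix.cons_val_one, Pi.add_apply,
      Pi.smul_apply, smul_eq_mul, Pi.zero_apply]
    linear_combination - hcon' s t) 1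
  simp only [Matrix.cons_val_one] at h2
  exact hs (neg_eq_zero.mp h2)

theorem rank_lower {N : ℕ} {I : Type} [Fintype I] {a : I → Fin (N + 1) → ℂ}
    (ha : AlgebraicIndependent ℚ fun p : I × Fin (N + 1) => a p.1 p.2) {w : Fin 2 → Fin (N + 1) → ℂ}
    (hw : LinearIndependent ℂ w) :
    1 ≤ N ∧ ∃ w' : Fin 2 → Fin (N + 1) → ℂ, (∀ k, w' k ∈ Submodule.span ℂ (Set.range w)) ∧
      ((Fintype.card I * 2 : ℕ) : ℕ∞) ≤
        rk (Set.range fun p : I × Fin 2 => dot (a p.1) (w' p.2)) + (2 * (N - 1) : ℕ) := by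
  classical
  obtain ⟨s, t, hst, hD⟩ := C_minor hw
  have hN : 1 ≤ N := by
    by_contra h1
    have h2 := s.isLt
    have h3 := t.isLt
    exact hst (Fin.ext (by omega))
  refine ⟨hN, ?_⟩
  obtain ⟨D, hDd⟩ : ∃ D, D = w 0 s * w 1 t - w 0 t * w 1 s := ⟨_, rfl⟩
  rw [← hDd] at hD
  obtain ⟨w', hw'⟩ : ∃ w' : Fin 2 → Fin (N + 1) → ℂ, w' =
    ![(w 1 t / D) • w 0 - (w 0 t / D) • w 1, (w 0 s / D) • w 1 - (w 1 s / D) • w 0] := ⟨_, rfl⟩
  have h0s : w' 0 s = 1 := by
    rw [hw']
    simp only [Matrix.cons_val_zero, Pi.sub_apply, Pi.smul_apply, smul_eq_mul]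
    field_simp
    rw [hDd]
    ring
  have h0t : w' 0 t = 0 := by
    rw [hw']
    simp only [Matrix.cons_val_zero, Pi.sub_apply, Pi.smul_apply, smul_eq_mul]
    field_simp
    ring
  have h1s : w' 1 s = 0 := by
    rw [hw']
    simp only [Matrix.cons_val_one, Matrix.cons_val_zero, Pi.sub_apply, Pi.smul_apply, smul_eq_mul]
    field_simp
    ring
  have h1t : w' 1 t = 1 := by
    rw [hw']
    simp only [Matrix.cons_val_one, Matrix.cons_val_zero, Pi.sub_apply, Pi.smul_apply, smul_eq_mul]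
    field_simp
    rw [hDd]
    ring
  have hspan : ∀ k, w' k ∈ Submodule.span ℂ (Set.range w) := by
    have h1 : ∀ k, w k ∈ Submodule.span ℂ (Set.range w) := fun k =>
      Submodule.subset_span ⟨k, rfl⟩
    intro k
    rw [hw']
    fin_cases k
    · exact Submodule.sub_mem _ (Submodule.smul_mem _ _ (h1 0)) (Submodule.smul_mem _ _ (h1 1))
    · exact Submodule.sub_mem _ (Submodule.smul_mem _ _ (h1 1)) (Submodule.smul_mem _ _ (h1 0))
  refine ⟨w', hspan, ?_⟩
  obtain ⟨J, hJ⟩ : ∃ J : Finset (Fin (N + 1)), J = (Finset.univ.erase s).erase t := ⟨_, rfl⟩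
  have hJc : J.card = N - 1 := by
    rw [hJ, Finset.card_erase_of_mem (Finset.mem_erase.mpr ⟨hst.symm, Finset.mem_univ t⟩),
      Finset.card_erase_of_mem (Finset.mem_univ s), Finset.card_univ, Fintype.card_fin]
    omega
  have hsum : ∀ (i : I) (k : Fin 2), dot (a i) (w' k) =
      a i s * w' k s + (a i t * w' k t + ∑ j ∈ J, a i j * w' k j) := by
    intro i k
    rw [dot, ← Finset.add_sum_erase Finset.univ _ (Finset.mem_univ s), hJ,
      ← Finset.add_sum_erase (Finset.univ.erase s) _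
        (Finset.mem_erase.mpr ⟨hst.symm, Finset.mem_univ t⟩)]
  obtain ⟨R1, hR1⟩ : ∃ R1 : Set ℂ, R1 = Set.range fun p : I × Fin 2 => dot (a p.1) (w' p.2) :=
    ⟨_, rfl⟩
  obtain ⟨R2, hR2⟩ : ∃ R2 : Set ℂ, R2 = (fun p : Fin 2 × Fin (N + 1) => w' p.1 p.2) ''
    ((Finset.univ ×ˢ J : Finset (Fin 2 × Fin (N + 1))) : Set (Fin 2 × Fin (N + 1))) := ⟨_, rfl⟩
  obtain ⟨R3, hR3⟩ : ∃ R3 : Set ℂ, R3 = (fun p : I × Fin (N + 1) => a p.1 p.2) ''
    ((Finset.univ ×ˢ J : Finset (I × Fin (N + 1))) : Set (I × Fin (N + 1))) := ⟨_, rfl⟩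
  rw [← hR1]
  have hw2 : ∀ k, ∀ j ∈ J, w' k j ∈
      Subalgebra.algebraicClosure (Algebra.adjoin ℚ (R1 ∪ (R2 ∪ R3))) ℂ := by
    intro k j hj
    apply C_sub
    right
    left
    rw [hR2]
    exact ⟨(k, j), Finset.mem_coe.mpr (Finset.mem_product.mpr ⟨Finset.mem_univ _, hj⟩), rfl⟩
  have ha3 : ∀ i, ∀ j ∈ J, a i j ∈
      Subalgebra.algebraicClosure (Algebra.adjoin ℚ (R1 ∪ (R2 ∪ R3))) ℂ := by
    intro i j hj
    apply C_sub
    right
    right
    rw [hR3]
    exact ⟨(i, j), Finset.mem_coe.mpr (Finset.mem_product.mpr ⟨Finset.mem_univ _, hj⟩), rfl⟩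
  have hd1 : ∀ i k, dot (a i) (w' k) ∈
      Subalgebra.algebraicClosure (Algebra.adjoin ℚ (R1 ∪ (R2 ∪ R3))) ℂ := by
    intro i k
    apply C_sub
    left
    rw [hR1]
    exact ⟨(i, k), rfl⟩
  have hS : ∀ i k, ∑ j ∈ J, a i j * w' k j ∈
      Subalgebra.algebraicClosure (Algebra.adjoin ℚ (R1 ∪ (R2 ∪ R3))) ℂ := by
    intro i k
    apply sum_mem
    intro j hj
    exact mul_mem (ha3 i j hj) (hw2 k j hj)
  have hall : ∀ x ∈ Set.range (fun p : I × Fin (N + 1) => a p.1 p.2), x ∈
      Subalgebra.algebraicClosure (Algebra.adjoin ℚ (R1 ∪ (R2 ∪ R3))) ℂ := by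
    rintro x ⟨⟨i, j⟩, rfl⟩
    by_cases hjs : j = s
    · have h1 : a i j = dot (a i) (w' 0) - ∑ j ∈ J, a i j * w' 0 j := by
        rw [hsum i 0, h0s, h0t, hjs]
        ring
      change a i j ∈ _
      rw [h1]
      exact sub_mem (hd1 i 0) (hS i 0)
    · by_cases hjt : j = t
      · have h1 : a i j = dot (a i) (w' 1) - ∑ j ∈ J, a i j * w' 1 j := by
          rw [hsum i 1, h1s, h1t, hjt]
          ring
        change a i j ∈ _
        rw [h1]
        exact sub_mem (hd1 i 1) (hS i 1)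
      · apply ha3 i j
        rw [hJ]
        exact Finset.mem_erase.mpr ⟨hjt, Finset.mem_erase.mpr ⟨hjs, Finset.mem_univ j⟩⟩
  have hrk1 : rk (Set.range (fun p : I × Fin (N + 1) => a p.1 p.2)) =
      ((Fintype.card I * (N + 1) : ℕ) : ℕ∞) := by
    unfold rk
    rw [Matroid.Indep.eRk_eq_encard (AlgebraicIndependent.matroid_indep_iff.mpr ha.coe_range)]
    have h1 : (Set.range (fun p : I × Fin (N + 1) => a p.1 p.2)).encard =
        (Set.univ : Set (I × Fin (N + 1))).encard := by
      rw [← Set.image_univ]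
      exact Set.InjOn.encard_image (ha.injective.injOn)
    rw [h1, Set.encard_univ, ENat.card_eq_coe_fintype_card, Fintype.card_prod, Fintype.card_fin]
  have hrk2 : rk (Set.range (fun p : I × Fin (N + 1) => a p.1 p.2)) ≤ rk (R1 ∪ (R2 ∪ R3)) := by
    unfold rk
    rw [← Matroid.eRk_closure_eq _ (R1 ∪ (R2 ∪ R3))]
    exact Matroid.eRk_mono _ fun x hx => C_mem.mpr (hall x hx)
  have hc2 : R2.encard ≤ ((2 * (N - 1) : ℕ) : ℕ∞) := by
    rw [hR2]
    refine (Set.encard_image_le _ _).trans ?_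
    rw [Set.encard_coe_eq_coe_finsetCard, Finset.card_product, hJc, Finset.card_univ,
      Fintype.card_fin]
  have hc3 : R3.encard ≤ ((Fintype.card I * (N - 1) : ℕ) : ℕ∞) := by
    rw [hR3]
    refine (Set.encard_image_le _ _).trans ?_
    rw [Set.encard_coe_eq_coe_finsetCard, Finset.card_product, hJc, Finset.card_univ]
  have hfin : ((Fintype.card I * (N + 1) : ℕ) : ℕ∞) ≤
      rk R1 + (((2 * (N - 1) : ℕ) : ℕ∞) + ((Fintype.card I * (N - 1) : ℕ) : ℕ∞)) := by
    rw [← hrk1]
    refine hrk2.trans ((rk_union_le _ _).trans (add_le_add le_rfl ((rk_union_le _ _).trans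
      (add_le_add ((C_rk_le_encard _).trans hc2) ((C_rk_le_encard _).trans hc3)))))
  have hsplit : Fintype.card I * (N + 1) = Fintype.card I * 2 + Fintype.card I * (N - 1) := by
    rw [← Nat.mul_add]
    congr 1
    omega
  rw [hsplit, ← add_assoc, Nat.cast_add] at hfin
  exact (ENat.add_le_add_iff_right (ENat.natCast_ne_top _)).mp hfin

/-- algebraically independent families exist -/
theorem exists_indep (I : Type) [Fintype I] : ∃ a : I → ℂ, AlgebraicIndependent ℚ a := by
  obtain ⟨s, hs⟩ := exists_isTranscendenceBasis ℚ ℂ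
  have h1 : Cardinal.mk ℂ = Cardinal.mk s := by
    refine IsAlgClosed.cardinal_eq_cardinal_transcendence_basis_of_aleph0_lt' _ hs ?_ ?_
    · exact Cardinal.mk_le_aleph0
    · rw [Cardinal.mk_complex]
      exact Cardinal.aleph0_lt_continuum
  have h2 : Cardinal.mk I ≤ Cardinal.mk s := by
    rw [← h1, Cardinal.mk_complex]
    exact (Cardinal.mk_le_aleph0).trans Cardinal.aleph0_le_continuum
  obtain ⟨f⟩ := Cardinal.le_def I s |>.mp h2
  exact ⟨fun i => (f i : ℂ), hs.1.comp f f.injective⟩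

end Pool.Agent.H68.FW
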