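import Pool.Agent.H68.FW.B
import Pool.Agent.H68.FW.C

/-!
# FW D: Fermat-Waring systems are hyperbolic

`exists_fw`: index type of groups `G = κ ⊕ ι`; sizes `Q (inl l) = Nat.sqrt (d l) + 1`, `Q (inr j) = Nat.sqrt (δ j)`; exponents `d l`, `δ j`; `I = Σ x : G, Fin (Q x)`; `N = r + card κ`. Take an algebraically independent family `a : I × Fin (N+1) → ℂ` (`exists_indep`), `g l = fw (d l) (a of the group inl l)`,
`h j = fw (δ j) (a of the group inr j)`. Let `f` be an entire curve in `stratum g h S`, and suppose `f z1 ≠ f z2`. With `s = sqrt d`: `(s+1)(s-1) = s^2 - 1 < d` (`Nat.sqrt_le'`), so `classes_zero` applies to the `g l` (`q = s + 1`) and to the `h j`, `j ∈ S` (`q = s`, `s (s-2) ≤ (s+1)(s-1) < δ`); for `j ∉ S`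
`classes_compl` applies (`q = s`, `(q+1)(q-1) = s^2 - 1 < δ`). The relations hold for the vectors `(f z).rep`, hence (they are linear in `x`) for all vectors of the span of `w 0 = (f z1).rep`, `w 1 = (f z2).rep`, which are linearly independent (`f z1 ≠ f z2`). `rank_lower` gives `w'` in the span with
`2 card I ≤ rk (...) + 2 (N - 1)`; the set of all `dot (a i) (w' k)` is the union over the groups, so by `rk_iUnion_le` and `rank_group` its rank is at most `∑_l Q (inl l) + ∑_j (Q (inr j) + 1)`. As `card I = ∑_l Q (inl l) + ∑_j Q (inr j)`: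
`∑_l (sqrt (d l) + 1) + ∑_j sqrt (δ j) ≤ card ι + 2 (N - 1)`, i.e. with `N = r + card κ`, `sqrt ≥ 1`: `∑_l (sqrt (d l) - 1) + ∑_j (sqrt (δ j) - 1) ≤ 2 r - 2`, a contradiction to `hr` (if `r = 0` the inequality with `N = card κ ≥ 1` gives
`∑ (sqrt (d l) - 1) + ... + 2 card κ ≤ 2 (card κ - 1)`, impossible).
`exists_system_fw`: the same for `Finset`-indexed or general types; this is the form of the blocks of GGLPairs.
-/

open MvPolynomial

namespace Pool.Agent.H68.FW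

open Pool.Agent.H17 Pool.Agent.H62.Log

private theorem D_dot_add {N : ℕ} (a x y : Fin (N + 1) → ℂ) : dot a (x + y) = dot a x + dot a y := by
  simp only [dot, Pi.add_apply, mul_add, Finset.sum_add_distrib]

private theorem D_dot_smul {N : ℕ} (a x : Fin (N + 1) → ℂ) (c : ℂ) : dot a (c • x) = c * dot a x := by
  simp only [dot, Pi.smul_apply, smul_eq_mul, Finset.mul_sum]
  exact Finset.sum_congr rfl fun i _ => by ring

private theorem D_dot_zero {N : ℕ} (a : Fin (N + 1) → ℂ) : dot a 0 = 0 := by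
  simp [dot]

private theorem D_span {N : ℕ} {a b : Fin (N + 1) → ℂ} {c : ℂ} {W : Set (Fin (N + 1) → ℂ)}
    (h : ∀ x ∈ W, dot a x = c * dot b x) {x : Fin (N + 1) → ℂ} (hx : x ∈ Submodule.span ℂ W) :
    dot a x = c * dot b x := by
  induction hx using Submodule.span_induction with
  | mem x hx => exact h x hx
  | zero => rw [D_dot_zero, D_dot_zero, mul_zero]
  | add x y _ _ hx hy => rw [D_dot_add, D_dot_add, hx, hy, mul_add]
  | smul t x _ hx =>
    rw [D_dot_smul, D_dot_smul, hx]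
    ring

private theorem D_classes {N q e : ℕ} {a : Fin q → Fin (N + 1) → ℂ} {W W' : Set (Fin (N + 1) → ℂ)}
    {E : Finset (Fin q)} {rep : Fin q → Fin q} {c : Fin q → ℂ} (h : Classes a e W E rep c)
    (hW : ∀ x ∈ W', x ∈ Submodule.span ℂ W) : Classes a e W' E rep c where
  card_le := h.card_le
  rep_rep := h.rep_rep
  c_rep := h.c_rep
  eq := fun i x hx => D_span (h.eq i) (hW x hx)
  sum := by
    intro i hi hE
    rcases h.sum i hi hE with h1 | h1
    · left
      intro x hx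
      have h2 := D_span (a := a i) (b := a i) (c := 0) (W := W)
        (fun x hx => by rw [h1 x hx, zero_mul]) (hW x hx)
      rw [h2, zero_mul]
    · exact Or.inr h1

/-- the contradiction from the count -/
private theorem D_count {N : ℕ} {G : Type} [Fintype G] {Q e k : G → ℕ} (he : ∀ x, 1 ≤ e x)
    {a : (Σ x : G, Fin (Q x)) → Fin (N + 1) → ℂ}
    (ha : AlgebraicIndependent ℚ fun p : (Σ x : G, Fin (Q x)) × Fin (N + 1) => a p.1 p.2)
    {f : ℂ → PN N}
    (hcl : ∀ x, ∃ E rep c, E.card ≤ k x ∧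
      Classes (fun i : Fin (Q x) => a ⟨x, i⟩) (e x) (Set.range fun z => (f z).rep) E rep c)
    (hk : ∑ x, k x + 2 * (N - 1) < ∑ x, Q x ∨ N = 0) (z1 z2 : ℂ) : f z1 = f z2 := by
  classical
  by_contra hne
  have hw : LinearIndependent ℂ (Projectivization.rep ∘ ![f z1, f z2]) :=
    Projectivization.independent_iff.mp ((Projectivization.independent_pair_iff_ne _ _).mpr hne)
  obtain ⟨hN, w', hw', hr⟩ := rank_lower ha hw
  have hspan : ∀ x ∈ Set.range w', x ∈ Submodule.span ℂ (Set.range fun z => (f z).rep) := by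
    rintro x ⟨l, rfl⟩
    refine Submodule.span_mono ?_ (hw' l)
    rintro y ⟨l, rfl⟩
    fin_cases l
    · exact ⟨z1, rfl⟩
    · exact ⟨z2, rfl⟩
  have h1 : (Set.range fun p : (Σ x : G, Fin (Q x)) × Fin 2 => dot (a p.1) (w' p.2)) ⊆
      ⋃ x : G, Set.range fun p : Fin (Q x) × Fin 2 => dot (a ⟨x, p.1⟩) (w' p.2) := by
    rintro y ⟨⟨⟨x, i⟩, l⟩, rfl⟩
    rw [Set.mem_iUnion]
    exact ⟨x, (i, l), rfl⟩
  have h2 : ∀ x, rk (Set.range fun p : Fin (Q x) × Fin 2 => dot (a ⟨x, p.1⟩) (w' p.2)) ≤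
      ((Q x + k x : ℕ) : ℕ∞) := by
    intro x
    obtain ⟨E, rep, c, hE, hc⟩ := hcl x
    refine (rank_group (he x) (D_classes hc hspan)).trans ?_
    rw [Nat.cast_add]
    exact add_le_add le_rfl (by exact_mod_cast hE)
  have h3 : rk (Set.range fun p : (Σ x : G, Fin (Q x)) × Fin 2 => dot (a p.1) (w' p.2)) ≤
      ((∑ x, (Q x + k x) : ℕ) : ℕ∞) := by
    refine (Matroid.eRk_mono _ h1).trans ((rk_iUnion_le _).trans ?_)
    rw [Nat.cast_sum]
    exact Finset.sum_le_sum fun x _ => h2 x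
  have h4 : ((Fintype.card (Σ x : G, Fin (Q x)) * 2 : ℕ) : ℕ∞) ≤
      ((∑ x, (Q x + k x) + 2 * (N - 1) : ℕ) : ℕ∞) := by
    refine hr.trans ?_
    rw [Nat.cast_add (∑ x, (Q x + k x))]
    exact add_le_add h3 le_rfl
  have h5 : Fintype.card (Σ x : G, Fin (Q x)) * 2 ≤ ∑ x, (Q x + k x) + 2 * (N - 1) := by
    exact_mod_cast h4
  rw [Fintype.card_sigma, Finset.sum_add_distrib] at h5
  simp only [Fintype.card_fin] at h5
  rcases hk with h6 | h6
  · omega
  · omega

theorem exists_system_fw {r : ℕ} {κ ι : Type} [Fintype κ] [Fintype ι] {d : κ → ℕ} {δ : ι → ℕ}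
    (hd : ∀ l, 1 ≤ d l) (hδ : ∀ j, 1 ≤ δ j)
    (hr : 2 * r ≤ ∑ l, (Nat.sqrt (d l) - 1) + ∑ j, (Nat.sqrt (δ j) - 1) + 1) :
    ∃ (g : κ → MvPolynomial (Fin (r + Fintype.card κ + 1)) ℂ)
      (h : ι → MvPolynomial (Fin (r + Fintype.card κ + 1)) ℂ),
      (∀ l, (g l).IsHomogeneous (d l)) ∧ (∀ j, (h j).IsHomogeneous (δ j)) ∧
        ∀ S, BrodyHyperbolic (stratum g h S) := by
  classical
  obtain ⟨Q, hQ⟩ : ∃ Q : κ ⊕ ι → ℕ,
      Q = Sum.elim (fun l => Nat.sqrt (d l) + 1) (fun j => Nat.sqrt (δ j)) := ⟨_, rfl⟩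
  obtain ⟨e, he⟩ : ∃ e : κ ⊕ ι → ℕ, e = Sum.elim d δ := ⟨_, rfl⟩
  obtain ⟨k, hk⟩ : ∃ k : κ ⊕ ι → ℕ, k = Sum.elim (fun _ => 0) (fun _ => 1) := ⟨_, rfl⟩
  obtain ⟨b, hb⟩ := exists_indep ((Σ x : κ ⊕ ι, Fin (Q x)) × Fin (r + Fintype.card κ + 1))
  obtain ⟨a, hab⟩ : ∃ a : (Σ x : κ ⊕ ι, Fin (Q x)) → Fin (r + Fintype.card κ + 1) → ℂ,
      a = fun i j => b (i, j) := ⟨_, rfl⟩
  have ha : AlgebraicIndependent ℚ
      fun p : (Σ x : κ ⊕ ι, Fin (Q x)) × Fin (r + Fintype.card κ + 1) => a p.1 p.2 := by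
    rw [hab]
    exact hb
  have hel : ∀ l, e (Sum.inl l) = d l := fun l => by rw [he]; rfl
  have her : ∀ j, e (Sum.inr j) = δ j := fun j => by rw [he]; rfl
  have hQl : ∀ l, Q (Sum.inl l) = Nat.sqrt (d l) + 1 := fun l => by rw [hQ]; rfl
  have hQr : ∀ j, Q (Sum.inr j) = Nat.sqrt (δ j) := fun j => by rw [hQ]; rfl
  have hkl : ∀ l, k (Sum.inl l) = 0 := fun l => by rw [hk]; rfl
  have hkr : ∀ j, k (Sum.inr j) = 1 := fun j => by rw [hk]; rfl
  have he1 : ∀ x, 1 ≤ e x := by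
    intro x
    rcases x with l | j
    · rw [hel]
      exact hd l
    · rw [her]
      exact hδ j
  obtain ⟨F, hF⟩ : ∃ F : κ ⊕ ι → MvPolynomial (Fin (r + Fintype.card κ + 1)) ℂ,
      F = fun x => fw (e x) (fun i : Fin (Q x) => a ⟨x, i⟩) := ⟨_, rfl⟩
  have hFh : ∀ x, (F x).IsHomogeneous (e x) := by
    intro x
    rw [hF]
    exact fw_isHomogeneous _ _
  refine ⟨fun l => F (Sum.inl l), fun j => F (Sum.inr j), ?_, ?_, ?_⟩
  · intro l
    have h1 := hFh (Sum.inl l)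
    rwa [hel] at h1
  · intro j
    have h1 := hFh (Sum.inr j)
    rwa [her] at h1
  intro S f hf hfS
  have hs1 : ∀ n : ℕ, 1 ≤ n → (Nat.sqrt n + 1) * (Nat.sqrt n + 1 - 2) < n := by
    intro n hn
    have h1 : Nat.sqrt n * Nat.sqrt n ≤ n := Nat.sqrt_le n
    have h2 : 1 ≤ Nat.sqrt n := Nat.sqrt_pos.mpr hn
    obtain ⟨m, hm⟩ : ∃ m, Nat.sqrt n = m + 1 := ⟨Nat.sqrt n - 1, by omega⟩
    rw [hm] at h1 ⊢
    have h3 : m + 1 + 1 - 2 = m := by omega
    rw [h3]
    nlinarith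
  have hs2 : ∀ n : ℕ, 1 ≤ n → (Nat.sqrt n + 1) * (Nat.sqrt n - 1) < n := by
    intro n hn
    have h1 := hs1 n hn
    have h3 : Nat.sqrt n + 1 - 2 = Nat.sqrt n - 1 := by omega
    rwa [h3] at h1
  have hs3 : ∀ n : ℕ, 1 ≤ n → Nat.sqrt n * (Nat.sqrt n - 2) < n := by
    intro n hn
    refine lt_of_le_of_lt (Nat.mul_le_mul ?_ ?_) (hs2 n hn) <;> omega
  have hcl : ∀ x, ∃ E rep c, E.card ≤ k x ∧
      Classes (fun i : Fin (Q x) => a ⟨x, i⟩) (e x) (Set.range fun z => (f z).rep) E rep c := by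
    intro x
    rcases x with l | j
    · have h1 : ∀ z, VanishesAt (fw (e (Sum.inl l)) (fun i : Fin (Q (Sum.inl l)) => a ⟨Sum.inl l, i⟩))
          (f z) := by
        intro z
        have h2 := (hfS z).1 l
        simp only [hF] at h2
        exact h2
      obtain ⟨rep, c, hc⟩ := classes_zero hf (by
        rw [hQl, hel]
        exact hs1 _ (hd l)) h1
      exact ⟨∅, rep, c, by simp, hc⟩
    · by_cases hj : j ∈ S
      · have h1 : ∀ z, VanishesAt
            (fw (e (Sum.inr j)) (fun i : Fin (Q (Sum.inr j)) => a ⟨Sum.inr j, i⟩)) (f z) := by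
          intro z
          have h2 := ((hfS z).2 j).mpr hj
          simp only [hF] at h2
          exact h2
        obtain ⟨rep, c, hc⟩ := classes_zero hf (by
          rw [hQr, her]
          exact hs3 _ (hδ j)) h1
        exact ⟨∅, rep, c, by simp, hc⟩
      · have h1 : ∀ z, ¬ VanishesAt
            (fw (e (Sum.inr j)) (fun i : Fin (Q (Sum.inr j)) => a ⟨Sum.inr j, i⟩)) (f z) := by
          intro z h3
          apply hj
          apply ((hfS z).2 j).mp
          simp only [hF]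
          exact h3
        obtain ⟨E, rep, c, hc⟩ := classes_compl hf (by
          rw [hQr, her]
          exact hs2 _ (hδ j)) h1
        exact ⟨E, rep, c, by rw [hkr]; exact hc.card_le, hc⟩
  apply D_count he1 ha hcl
  by_cases hN : r + Fintype.card κ = 0
  · exact Or.inr hN
  left
  rw [Fintype.sum_sum_type, Fintype.sum_sum_type]
  simp only [hQl, hQr, hkl, hkr, Finset.sum_const_zero, zero_add, Finset.sum_const,
    Finset.card_univ, smul_eq_mul, mul_one]
  have h1 : ∑ l, (Nat.sqrt (d l) + 1) = ∑ l, (Nat.sqrt (d l) - 1) + 2 * Fintype.card κ := by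
    have h2 : ∀ l, Nat.sqrt (d l) + 1 = (Nat.sqrt (d l) - 1) + 2 := by
      intro l
      have h3 : 1 ≤ Nat.sqrt (d l) := Nat.sqrt_pos.mpr (hd l)
      omega
    rw [Finset.sum_congr rfl fun l _ => h2 l, Finset.sum_add_distrib, Finset.sum_const,
      Finset.card_univ, smul_eq_mul, mul_comm 2]
  have h2 : ∑ j, Nat.sqrt (δ j) = ∑ j, (Nat.sqrt (δ j) - 1) + Fintype.card ι := by
    have h2 : ∀ j, Nat.sqrt (δ j) = (Nat.sqrt (δ j) - 1) + 1 := by
      intro j
      have h3 : 1 ≤ Nat.sqrt (δ j) := Nat.sqrt_pos.mpr (hδ j)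
      omega
    rw [Finset.sum_congr rfl fun j _ => h2 j, Finset.sum_add_distrib, Finset.sum_const,
      Finset.card_univ, smul_eq_mul, mul_one]
  rw [h1, h2]
  omega

end Pool.Agent.H68.FW
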