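import Pool.Agent.H62.FC.Dichotomy
import Pool.Agent.H62.Log.OpenLog

/-!
# FW: Fermat-Waring systems, definitions

`lin a` is the linear form with coefficients `a`, `fw e a = ∑ i, (lin (a i))^e`.
`Classes a e w rep c i0`: the vectors `w k` (points of the cone) satisfy `lin (a i) (w) = c i * lin (a (rep i)) (w)`; the classes `{j | rep j = i}` of the
representatives `i ≠ i0` either consist of forms vanishing at all `w k` or satisfy `∑ (c j)^e = 0`.
-/

open MvPolynomial

namespace Pool.Agent.H68.FW

open Pool.Agent.H17 Pool.Agent.H62.Log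

/-- The value of the linear form with coefficients `a` at `x`. -/
noncomputable def dot {N : ℕ} (a x : Fin (N + 1) → ℂ) : ℂ := ∑ j, a j * x j

/-- The linear form with coefficients `a`. -/
noncomputable def lin {N : ℕ} (a : Fin (N + 1) → ℂ) : MvPolynomial (Fin (N + 1)) ℂ := ∑ j, C (a j) * X j

/-- The sum of the `e`-th powers of linear forms. -/
noncomputable def fw {N q : ℕ} (e : ℕ) (a : Fin q → Fin (N + 1) → ℂ) : MvPolynomial (Fin (N + 1)) ℂ :=
  ∑ i, lin (a i) ^ e

theorem eval_lin {N : ℕ} (a x : Fin (N + 1) → ℂ) : eval x (lin a) = dot a x := by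
  simp [lin, dot]

theorem eval_fw {N q : ℕ} (e : ℕ) (a : Fin q → Fin (N + 1) → ℂ) (x : Fin (N + 1) → ℂ) :
    eval x (fw e a) = ∑ i, dot (a i) x ^ e := by
  simp [fw, eval_lin]

theorem lin_isHomogeneous {N : ℕ} (a : Fin (N + 1) → ℂ) : (lin a).IsHomogeneous 1 := by
  unfold lin
  refine IsHomogeneous.sum _ _ _ fun j _ => ?_
  simpa using (isHomogeneous_C (Fin (N + 1)) (a j)).mul (isHomogeneous_X ℂ j)

theorem fw_isHomogeneous {N q : ℕ} (e : ℕ) (a : Fin q → Fin (N + 1) → ℂ) : (fw e a).IsHomogeneous e := by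
  unfold fw
  refine IsHomogeneous.sum _ _ _ fun i _ => ?_
  simpa using (lin_isHomogeneous (a i)).pow e

/-- Grouping of the linear forms `a i` along a set `W` of vectors: `rep i` is the representative of the class of `i`,
`dot (a i) = c i * dot (a (rep i))` on `W`, and for every representative `i` which is not in the exceptional set `E` (empty or one
element) the class consists of forms vanishing on `W` or `∑_{j in the class} (c j)^e = 0`. -/
structure Classes {N q : ℕ} (a : Fin q → Fin (N + 1) → ℂ) (e : ℕ) (W : Set (Fin (N + 1) → ℂ))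
    (E : Finset (Fin q)) (rep : Fin q → Fin q) (c : Fin q → ℂ) : Prop where
  card_le : E.card ≤ 1
  rep_rep : ∀ i, rep (rep i) = rep i
  c_rep : ∀ i, c (rep i) = 1
  eq : ∀ i, ∀ x ∈ W, dot (a i) x = c i * dot (a (rep i)) x
  sum : ∀ i, rep i = i → i ∉ E → (∀ x ∈ W, dot (a i) x = 0) ∨
    ∑ j ∈ Finset.univ.filter (fun j => rep j = i), c j ^ e = 0

end Pool.Agent.H68.FW
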